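import Mathlib

set_option autoImplicit false

/-!
Conjugation on a corner of a ring by a unit of a larger corner.
-/

namespace Pool.Agent.Helper492_FJ

variable {A : Type} [Ring A]

/-- the units `v` with `v - 1 ∈ e A e` -/
def cornerUnits (e : A) : Subgroup Aˣ where
  carrier := {v | e * ((v : A) - 1) = v - 1 ∧ ((v : A) - 1) * e = v - 1}
  one_mem' := by simp
  mul_mem' := by
    rintro v w ⟨h1, h2⟩ ⟨h3, h4⟩
    have h : ((v * w : Aˣ) : A) - 1 = (v - 1) * (w - 1) + (v - 1) + (w - 1) := by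
      rw [Units.val_mul]
      noncomm_ring
    constructor
    · rw [h, mul_add, mul_add, ← mul_assoc, h1, h3]
    · rw [h, add_mul, add_mul, mul_assoc, h4, h2]
  inv_mem' := by
    rintro v ⟨h1, h2⟩
    have h : ((v⁻¹ : Aˣ) : A) - 1 = -((v - 1) * (v⁻¹ : Aˣ)) := by
      rw [sub_mul, Units.mul_inv, one_mul]
      abel
    have h' : ((v⁻¹ : Aˣ) : A) - 1 = -((v⁻¹ : Aˣ) * (v - 1)) := by
      rw [mul_sub, Units.inv_mul, mul_one]
      abel
    constructor
    · rw [h, mul_neg, ← mul_assoc, h1]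
    · rw [h', neg_mul, mul_assoc, h2]

theorem mem_cornerUnits {e : A} {v : Aˣ} :
    v ∈ cornerUnits e ↔ e * ((v : A) - 1) = v - 1 ∧ ((v : A) - 1) * e = v - 1 := Iff.rfl

section aux

variable {e f x y u v : A}

theorem aux (huv : u * v = 1) (hvu : v * u = 1) (he : e * e = e) (hf : f * f = f) (hfe : f * e = e)
    (hef : e * f = e) (h1 : f * (u * e * v) = u * e * v) (h2 : u * e * v * f = u * e * v)
    (hxy : x * y = e) (hfy : f * y = 0) (hxf : x * f = 0) (hex : e * x = x) (hye : y * e = y) :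
    ∃ h : Aˣ, h ∈ cornerUnits (f + y * x) ∧ (∀ z, e * z = z → (h : A) * z = u * z) ∧
      ∀ z, z * e = z → z * (h⁻¹ : Aˣ) = z * v := by
  -- the elements
  obtain ⟨E, hE⟩ : ∃ E, E = u * e * v := ⟨_, rfl⟩
  obtain ⟨X, hX⟩ : ∃ X, X = u * x := ⟨_, rfl⟩
  obtain ⟨Y, hY⟩ : ∃ Y, Y = y * v := ⟨_, rfl⟩
  rw [← hE] at h1 h2
  have hxe : x * e = 0 := by rw [← hfe, ← mul_assoc, hxf, zero_mul]
  have hey : e * y = 0 := by rw [← hef, mul_assoc, hfy, mul_zero]
  have hEu : E * u = u * e := by rw [hE, mul_assoc, hvu, mul_one]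
  have hvE : v * E = e * v := by rw [hE, mul_assoc, ← mul_assoc v u, hvu, one_mul]
  have hEE : E * E = E := by
    rw [hE, show u * e * v * (u * e * v) = u * e * (v * u) * e * v by noncomm_ring, hvu, mul_one,
      mul_assoc u e e, he]
  have hEX : E * X = X := by rw [hX, ← mul_assoc, hEu, mul_assoc, hex]
  have hYE : Y * E = Y := by rw [hY, mul_assoc, hvE, ← mul_assoc, hye]
  have hYX : Y * X = y * x := by rw [hX, hY, mul_assoc, ← mul_assoc v u, hvu, one_mul]
  have hXY : X * Y = E := by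
    rw [hX, hY, show u * x * (y * v) = u * (x * y) * v by noncomm_ring, hxy, hE]
  have hfX : f * X = X := by rw [← hEX, ← mul_assoc, h1]
  have hYf : Y * f = Y := by rw [← hYE, mul_assoc, h2]
  have hfY : f * Y = 0 := by rw [hY, ← mul_assoc, hfy, zero_mul]
  have hXf : X * f = 0 := by rw [hX, mul_assoc, hxf, mul_zero]
  have hXE : X * E = 0 := by rw [← h1, ← mul_assoc, hXf, zero_mul]
  have hEY : E * Y = 0 := by rw [← h2, mul_assoc, hfY, mul_zero]
  have hkk : y * x * (y * x) = y * x := by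
    rw [show y * x * (y * x) = y * (x * y) * x by noncomm_ring, hxy, hye]
  have hfk : f * (y * x) = 0 := by rw [← mul_assoc, hfy, zero_mul]
  have hkf : y * x * f = 0 := by rw [mul_assoc, hxf, mul_zero]
  have hek : e * (y * x) = 0 := by rw [← mul_assoc, hey, zero_mul]
  have hke : y * x * e = 0 := by rw [mul_assoc, hxe, mul_zero]
  have hEk : E * (y * x) = 0 := by rw [← h2, mul_assoc, hfk, mul_zero]
  have hkE : y * x * E = 0 := by rw [← h1, ← mul_assoc, hkf, zero_mul]
  obtain ⟨F, hF⟩ : ∃ F, F = f + y * x := ⟨_, rfl⟩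
  obtain ⟨p, hp⟩ : ∃ p, p = f - e + x := ⟨_, rfl⟩
  obtain ⟨p', hp'⟩ : ∃ p', p' = f - e + y := ⟨_, rfl⟩
  obtain ⟨q, hq⟩ : ∃ q, q = f - E + X := ⟨_, rfl⟩
  obtain ⟨q', hq'⟩ : ∃ q', q' = f - E + Y := ⟨_, rfl⟩
  have hFF : F * F = F := by
    rw [hF, mul_add, add_mul, add_mul, hf, hkf, hfk, hkk, add_zero, zero_add]
  have hpp : p * p' = f := by
    rw [hp, hp', add_mul, mul_add, mul_add, sub_mul, mul_sub, mul_sub, hf, hfe, hef, he, sub_mul, hfy,
      hey, mul_sub, hxf, hxe, hxy]
    abel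
  have hpp' : p' * p = F - e := by
    rw [hp, hp', add_mul, mul_add, mul_add, sub_mul, mul_sub, mul_sub, hf, hfe, hef, he, sub_mul,
      mul_sub, hye, hex, hF, show f * x = x by rw [← hex, ← mul_assoc, hfe],
      show y * f = y by rw [← hye, mul_assoc, hef]]
    abel
  have hqq : q * q' = f := by
    rw [hq, hq', add_mul, mul_add, mul_add, sub_mul, mul_sub, mul_sub, hf, h1, h2, hEE, sub_mul, hfY,
      hEY, mul_sub, hXf, hXE, hXY]
    abel
  have hqq' : q' * q = F - E := by
    rw [hq, hq', add_mul, mul_add, mul_add, sub_mul, mul_sub, mul_sub, hf, h1, h2, hEE, sub_mul,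
      mul_sub, hYE, hEX, hF, hfX, hYf, hYX]
    abel
  have hpe : p * e = 0 := by rw [hp, add_mul, sub_mul, hfe, he, hxe]; abel
  have hep : e * p' = 0 := by rw [hp', mul_add, mul_sub, hef, he, hey]; abel
  have hqE : q * E = 0 := by rw [hq, add_mul, sub_mul, h1, hEE, hXE]; abel
  have hEq : E * q' = 0 := by rw [hq', mul_add, mul_sub, h2, hEE, hEY]; abel
  have hpF : p * F = p := by
    rw [hp, hF, add_mul, mul_add, mul_add, sub_mul, sub_mul, hf, hef, hfk, hek, hxf, ← mul_assoc, hxy,
      hex]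
    abel
  have hFp : F * p' = p' := by
    rw [hp', hF, add_mul, mul_add, mul_add, mul_sub, mul_sub, hf, hfe, hkf, hke, hfy, mul_assoc, hxy,
      hye]
    abel
  have hqF : q * F = q := by
    rw [hq, hF, add_mul, mul_add, mul_add, sub_mul, sub_mul, hf, h2, hfk, hEk, hXf, ← hYX, ← mul_assoc,
      hXY, hEX]
    abel
  have hFq : F * q' = q' := by
    rw [hq', hF, add_mul, mul_add, mul_add, mul_sub, mul_sub, hf, h1, hkf, hkE, hfY, ← hYX, mul_assoc,
      hXY, hYE]
    abel
  have hfq : f * q = q := by rw [hq, mul_add, mul_sub, hf, h1, hfX]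
  have hfp : f * p = p := by
    rw [hp, mul_add, mul_sub, hf, hfe, show f * x = x by rw [← hex, ← mul_assoc, hfe]]
  have hFe : F * e = e := by rw [hF, add_mul, hfe, hke, add_zero]
  have heF : e * F = e := by rw [hF, mul_add, hef, hek, add_zero]
  have hFE : F * E = E := by rw [hF, add_mul, h1, hkE, add_zero]
  have hEF : E * F = E := by rw [hF, mul_add, h2, hEk, add_zero]
  have hue : u * e = E * (u * e) := by rw [← hEu, ← mul_assoc, hEE]
  have hev : e * v = e * v * E := by rw [← hvE, mul_assoc, hEE]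
  have a1 : (u * e + q' * p + (1 - F)) * (e * v + p' * q + (1 - F)) = 1 := by
    have b1 : u * e * (e * v) = E := by rw [hE, mul_assoc, ← mul_assoc e, he, mul_assoc]
    have b2 : u * e * (p' * q) = 0 := by rw [mul_assoc, ← mul_assoc e, hep, zero_mul, mul_zero]
    have b3 : u * e * (1 - F) = 0 := by rw [mul_assoc, mul_sub, mul_one, heF, sub_self, mul_zero]
    have b4 : q' * p * (e * v) = 0 := by rw [mul_assoc, ← mul_assoc p, hpe, zero_mul, mul_zero]
    have b5 : q' * p * (p' * q) = F - E := by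
      rw [mul_assoc, ← mul_assoc p, hpp, hfq, hqq']
    have b6 : q' * p * (1 - F) = 0 := by rw [mul_assoc, mul_sub, mul_one, hpF, sub_self, mul_zero]
    have b7 : (1 - F) * (e * v) = 0 := by rw [← mul_assoc, sub_mul, one_mul, hFe, sub_self, zero_mul]
    have b8 : (1 - F) * (p' * q) = 0 := by
      rw [← mul_assoc, sub_mul, one_mul, hFp, sub_self, zero_mul]
    have b9 : (1 - F) * (1 - F) = 1 - F := by
      rw [mul_sub, mul_one, sub_mul, one_mul, hFF, sub_self, sub_zero]
    rw [add_mul, add_mul, mul_add, mul_add, mul_add, mul_add, mul_add, mul_add, b1, b2, b3, b4, b5, b6,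
      b7, b8, b9]
    abel
  have a2 : (e * v + p' * q + (1 - F)) * (u * e + q' * p + (1 - F)) = 1 := by
    have b1 : e * v * (u * e) = e := by
      rw [show e * v * (u * e) = e * (v * u) * e by noncomm_ring, hvu, mul_one, he]
    have b2 : e * v * (q' * p) = 0 := by
      rw [hev, mul_assoc, ← mul_assoc E, hEq, zero_mul, mul_zero]
    have b3 : e * v * (1 - F) = 0 := by
      rw [hev, mul_assoc, mul_sub, mul_one, hEF, sub_self, mul_zero]
    have b4 : p' * q * (u * e) = 0 := by
      rw [hue, mul_assoc, ← mul_assoc q, hqE, zero_mul, mul_zero]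
    have b5 : p' * q * (q' * p) = F - e := by
      rw [mul_assoc, ← mul_assoc q, hqq, hfp, hpp']
    have b6 : p' * q * (1 - F) = 0 := by rw [mul_assoc, mul_sub, mul_one, hqF, sub_self, mul_zero]
    have b7 : (1 - F) * (u * e) = 0 := by
      rw [hue, ← mul_assoc, sub_mul, one_mul, hFE, sub_self, zero_mul]
    have b8 : (1 - F) * (q' * p) = 0 := by
      rw [← mul_assoc, sub_mul, one_mul, hFq, sub_self, zero_mul]
    have b9 : (1 - F) * (1 - F) = 1 - F := by
      rw [mul_sub, mul_one, sub_mul, one_mul, hFF, sub_self, sub_zero]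
    rw [add_mul, add_mul, mul_add, mul_add, mul_add, mul_add, mul_add, mul_add, b1, b2, b3, b4, b5, b6,
      b7, b8, b9]
    abel
  refine ⟨⟨u * e + q' * p + (1 - F), e * v + p' * q + (1 - F), a1, a2⟩, ?_, ?_, ?_⟩
  · rw [mem_cornerUnits, ← hF]
    have c1 : u * e + q' * p + (1 - F) - 1 = u * e + q' * p - F := by abel
    change F * (u * e + q' * p + (1 - F) - 1) = u * e + q' * p + (1 - F) - 1 ∧
      (u * e + q' * p + (1 - F) - 1) * F = u * e + q' * p + (1 - F) - 1
    rw [c1]
    constructor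
    · rw [mul_sub, mul_add, ← mul_assoc F q', hFq, hFF]
      congr 2
      rw [hue, ← mul_assoc, hFE]
    · rw [sub_mul, add_mul, mul_assoc q', hpF, hFF, mul_assoc u, heF]
  · intro z hz
    change (u * e + q' * p + (1 - F)) * z = u * z
    rw [← hz, add_mul, add_mul, mul_assoc q', ← mul_assoc p, hpe, zero_mul, mul_zero, sub_mul, one_mul,
      ← mul_assoc F, hFe, sub_self, add_zero, add_zero, mul_assoc, ← mul_assoc e, he]
  · intro z hz
    change z * (e * v + p' * q + (1 - F)) = z * v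
    rw [← hz, mul_add, mul_add, mul_assoc z e (p' * q), ← mul_assoc e p', hep, zero_mul, mul_zero,
      mul_sub, mul_one, mul_assoc z e F, heF, sub_self, add_zero, add_zero, mul_assoc z e, ← mul_assoc e,
      he, ← mul_assoc]

end aux

end Pool.Agent.Helper492_FJ
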