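import Pool.Agent.R779.FJ.Col
import Pool.Agent.Y961.FJ.Perm
import Pool.Agent.Y529.FJ.Ext
import Pool.Agent.Helper492_FJ.Ring

set_option autoImplicit false

namespace Pool.Agent.Helper492_FJ

open Pool.Agent.Y110.FJ

/-- `a` lies in the corner `e A e` (for `e` idempotent) -/
def InCorner {A : Type} [Ring A] (e a : A) : Prop := e * a = a ∧ a * e = a

section

variable {A : Type} [Ring A]

theorem InCorner.trans {e f a : A} (h1 : InCorner f e) (h2 : InCorner e a) : InCorner f a := by
  refine ⟨?_, ?_⟩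
  · rw [← h2.1, ← mul_assoc, h1.1]
  · rw [← h2.2, mul_assoc, h1.2]

theorem mem_iff {e : A} {v : Aˣ} : v ∈ cornerUnits e ↔ InCorner e ((v : A) - 1) := Iff.rfl

theorem cornerUnits_mono {k F : A} (h : InCorner F k) : cornerUnits k ≤ cornerUnits F :=
  fun _ hv => mem_iff.2 (h.trans (mem_iff.1 hv))

theorem mul2 {a b c d a' b' c' d' p q r s : A} (h1 : a * a' + b * c' = p) (h2 : a * b' + b * d' = q)
    (h3 : c * a' + d * c' = r) (h4 : c * b' + d * d' = s) :
    (!![a, b; c, d] : Matrix (Fin 2) (Fin 2) A) * !![a', b'; c', d'] = !![p, q; r, s] := by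
  rw [Matrix.mul_fin_two, h1, h2, h3, h4]

theorem zero2 : (0 : Matrix (Fin 2) (Fin 2) A) = !![0, 0; 0, 0] := by
  ext i j
  fin_cases i <;> fin_cases j <;> rfl

theorem add2 {a b c d a' b' c' d' p q r s : A} (h1 : a + a' = p) (h2 : b + b' = q)
    (h3 : c + c' = r) (h4 : d + d' = s) :
    (!![a, b; c, d] : Matrix (Fin 2) (Fin 2) A) + !![a', b'; c', d'] = !![p, q; r, s] := by
  subst h1 h2 h3 h4
  ext i j
  fin_cases i <;> fin_cases j <;> rfl

/-- the scalar matrix -/
def sc (f : A) : Matrix (Fin 2) (Fin 2) A := !![f, 0; 0, f]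

theorem commutes {f : A} {v : (Matrix (Fin 2) (Fin 2) A)ˣ} (hv : v ∈ cornerUnits (sc f)) (i j : Fin 2) :
    f * v.val i j = v.val i j * f := by
  have h1 : sc f * v.val = v.val * sc f := by
    have h2 := hv.1
    have h3 := hv.2
    rw [mul_sub, mul_one] at h2
    rw [sub_mul, one_mul] at h3
    have h4 : sc f * v.val = v.val - 1 + sc f := by rw [← h2]; abel
    have h5 : v.val * sc f = v.val - 1 + sc f := by rw [← h3]; abel
    rw [h4, h5]
  have h2 := congrFun (congrFun h1 i) j
  rw [Matrix.mul_apply, Matrix.mul_apply, Fin.sum_univ_two, Fin.sum_univ_two] at h2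
  fin_cases i <;> fin_cases j <;> simpa [sc] using h2

/-- the corner part of a matrix -/
def toCorner {f : A} (hf : IsIdempotentElem f) (v : Matrix (Fin 2) (Fin 2) A) :
    Matrix (Fin 2) (Fin 2) hf.Corner :=
  Matrix.of fun i j => ⟨f * v i j * f, v i j, rfl⟩

/-- the units of the corner of the matrix ring are invertible matrices over the corner -/
def cornerHom {f : A} (hf : IsIdempotentElem f) :
    cornerUnits (sc f) →* Matrix (Fin 2) (Fin 2) hf.Corner where
  toFun v := toCorner hf v.1.val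
  map_one' := by
    ext i j
    apply Subtype.ext
    change f * (1 : Matrix (Fin 2) (Fin 2) A) i j * f = ((1 : Matrix (Fin 2) (Fin 2) hf.Corner) i j).1
    rw [Matrix.one_apply, Matrix.one_apply]
    split_ifs
    · rw [mul_one]
      exact hf
    · rw [mul_zero, zero_mul]
      rfl
  map_mul' v w := by
    ext i j
    apply Subtype.ext
    have h1 : ∀ k : Fin 2, f * v.1.val i k * f * (f * w.1.val k j * f) =
        f * (v.1.val i k * w.1.val k j) * f := by
      intro k
      have hf' : f * f = f := hf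
      have hv := commutes v.2 i k
      have hw := commutes w.2 k j
      revert hv hw
      generalize v.1.val i k = a
      generalize w.1.val k j = b
      intro hv hw
      rw [hv, hw, mul_assoc a f f, hf', mul_assoc b f f, hf', ← mul_assoc f a b, hv, mul_assoc a f b,
        hw, mul_assoc a f, ← mul_assoc f b f, hw, mul_assoc b f f, hf', mul_assoc a (b * f) f,
        mul_assoc b f f, hf']
    change f * (v.1.val * w.1.val) i j * f = ((toCorner hf v.1.val * toCorner hf w.1.val) i j).1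
    rw [Matrix.mul_apply, Matrix.mul_apply, Fin.sum_univ_two, Fin.sum_univ_two, mul_add, add_mul,
      ← h1 0, ← h1 1]
    rfl

theorem cornerHom_injective {f : A} (hf : IsIdempotentElem f) :
    Function.Injective (cornerHom hf) := by
  intro v w h
  apply Subtype.ext
  apply Units.ext
  have h1 : ∀ z : cornerUnits (sc f), ∀ i j : Fin 2, z.1.val i j =
      f * z.1.val i j * f - (sc f) i j + (1 : Matrix (Fin 2) (Fin 2) A) i j := by
    intro z i j
    have h2 := z.2.1
    rw [mul_sub, mul_one] at h2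
    have h3 := congrFun (congrFun h2 i) j
    have h4 : (sc f * z.1.val) i j = f * z.1.val i j * f := by
      have hf' : f * f = f := hf
      rw [mul_assoc, ← commutes z.2 i j, ← mul_assoc, hf', Matrix.mul_apply, Fin.sum_univ_two]
      fin_cases i <;> simp [sc]
    rw [Matrix.sub_apply, Matrix.sub_apply, h4] at h3
    rw [h3]
    abel
  ext i j
  rw [h1 v, h1 w]
  have h2 := congrArg Subtype.val (congrFun (congrFun h i) j)
  have h3 : f * v.1.val i j * f = f * w.1.val i j * f := h2
  rw [h3]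

theorem mem_C {C : ∀ (G : Type) [Group G], Prop} (hC : ClosedE C) {f : A} (hf : IsIdempotentElem f)
    (h : C (Matrix (Fin 2) (Fin 2) hf.Corner)ˣ) : C (cornerUnits (sc f)) := by
  refine hC.base.of_injective _ _ (cornerHom hf).toHomUnits ?_ h
  intro v w hvw
  exact cornerHom_injective hf (congrArg Units.val hvw)

/-- the diagonal matrices with entries `a`, `1` -/
def dH (A : Type) [Ring A] : A →* Matrix (Fin 2) (Fin 2) A where
  toFun a := !![a, 0; 0, 1]
  map_one' := by rw [Matrix.one_fin_two]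
  map_mul' a b := by simp [Matrix.mul_fin_two]

theorem dH_apply (a : A) : dH A a = !![a, 0; 0, 1] := rfl

theorem dH_sub (a : A) : dH A a - 1 = !![a - 1, 0; 0, 0] := by
  rw [sub_eq_iff_eq_add, dH_apply, Matrix.one_fin_two]
  exact (add2 (by simp) (by simp) (by simp) (by simp)).symm

/-- the conjugation on a corner by a unit is a conjugation in the matrix ring over a larger corner -/
theorem realize {e f u v : A} (huv : u * v = 1) (hvu : v * u = 1) (he : e * e = e) (hf : f * f = f)
    (h1 : InCorner f e) (h2 : InCorner f (u * e * v)) :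
    ∃ h : (Matrix (Fin 2) (Fin 2) A)ˣ, h ∈ cornerUnits (sc f) ∧
      ∀ z : A, InCorner e z → h.val * dH A (1 + z) * (h⁻¹).val = dH A (1 + u * z * v) := by
  have hU : (!![u, 0; 0, 1] : Matrix (Fin 2) (Fin 2) A) * !![v, 0; 0, 1] = 1 := by
    rw [Matrix.one_fin_two]
    exact mul2 (by simp [huv]) (by simp) (by simp) (by simp)
  have hV : (!![v, 0; 0, 1] : Matrix (Fin 2) (Fin 2) A) * !![u, 0; 0, 1] = 1 := by
    rw [Matrix.one_fin_two]
    exact mul2 (by simp [hvu]) (by simp) (by simp) (by simp)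
  have hE : (!![u, 0; 0, 1] : Matrix (Fin 2) (Fin 2) A) * !![e, 0; 0, 0] * !![v, 0; 0, 1] =
      !![u * e * v, 0; 0, 0] := by
    rw [mul2 (p := u * e) (q := 0) (r := 0) (s := 0) (by simp) (by simp) (by simp) (by simp)]
    exact mul2 (by simp) (by simp) (by simp) (by simp)
  obtain ⟨h, hh, ha, hb⟩ := aux (e := (!![e, 0; 0, 0] : Matrix (Fin 2) (Fin 2) A))
    (f := !![f, 0; 0, 0]) (x := !![0, e; 0, 0]) (y := !![0, 0; e, 0]) hU hV
    (mul2 (by simp [he]) (by simp) (by simp) (by simp))
    (mul2 (by simp [hf]) (by simp) (by simp) (by simp))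
    (mul2 (by simp [h1.1]) (by simp) (by simp) (by simp))
    (mul2 (by simp [h1.2]) (by simp) (by simp) (by simp))
    (by rw [hE]; exact mul2 (by simp [h2.1]) (by simp) (by simp) (by simp))
    (by rw [hE]; exact mul2 (by simp [h2.2]) (by simp) (by simp) (by simp))
    (mul2 (by simp [he]) (by simp) (by simp) (by simp))
    (by rw [zero2]; exact mul2 (by simp) (by simp) (by simp) (by simp))
    (by rw [zero2]; exact mul2 (by simp) (by simp) (by simp) (by simp))
    (mul2 (by simp) (by simp [he]) (by simp) (by simp))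
    (mul2 (by simp) (by simp) (by simp [he]) (by simp))
  refine ⟨h, cornerUnits_mono ?_ hh, fun z hz => ?_⟩
  · have e0 : (!![f, 0; 0, 0] : Matrix (Fin 2) (Fin 2) A) + !![0, 0; e, 0] * !![0, e; 0, 0] =
        !![f, 0; 0, e] := by
      rw [mul2 (p := 0) (q := 0) (r := 0) (s := e) (by simp) (by simp) (by simp) (by simp [he])]
      exact add2 (by simp) (by simp) (by simp) (by simp)
    rw [e0]
    exact ⟨mul2 (by simp [hf]) (by simp) (by simp) (by simp [h1.1]),
      mul2 (by simp [hf]) (by simp) (by simp) (by simp [h1.2])⟩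
  · have e1 : dH A (1 + z) = 1 + !![z, 0; 0, 0] := by
      rw [dH_apply, Matrix.one_fin_two]
      exact (add2 rfl (by simp) (by simp) (by simp)).symm
    have e2 : dH A (1 + u * z * v) = 1 + !![u * z * v, 0; 0, 0] := by
      rw [dH_apply, Matrix.one_fin_two]
      exact (add2 rfl (by simp) (by simp) (by simp)).symm
    have h3 := ha !![z, 0; 0, 0] (mul2 (by simp [hz.1]) (by simp) (by simp) (by simp))
    have h4 := hb !![u * z, 0; 0, 0] (mul2 (by simp [mul_assoc, hz.2]) (by simp) (by simp) (by simp))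
    have h5 : (!![u, 0; 0, 1] : Matrix (Fin 2) (Fin 2) A) * !![z, 0; 0, 0] = !![u * z, 0; 0, 0] :=
      mul2 (by simp) (by simp) (by simp) (by simp)
    have h6 : (!![u * z, 0; 0, 0] : Matrix (Fin 2) (Fin 2) A) * !![v, 0; 0, 1] =
        !![u * z * v, 0; 0, 0] :=
      mul2 (by simp) (by simp) (by simp) (by simp)
    rw [e1, e2, mul_add, mul_one, add_mul, h.mul_inv, h3, h5, h4, h6]

end

section main

variable {C : ∀ (G : Type) [Group G], Prop} (hC : ClosedE C) {A : Type} [Ring A] (𝓔 : Set A)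
  (hidem : ∀ e ∈ 𝓔, IsIdempotentElem e)
  (hdir : ∀ e ∈ 𝓔, ∀ e' ∈ 𝓔, ∃ f ∈ 𝓔, InCorner f e ∧ InCorner f e')
  (hGL : ∀ (e : A) (he : IsIdempotentElem e), e ∈ 𝓔 → C (Matrix (Fin 2) (Fin 2) he.Corner)ˣ)
  {G : Type} [Group G] (ρ : G →* Aˣ)
  (hconj : ∀ g : G, ∀ e ∈ 𝓔, ∃ f ∈ 𝓔, InCorner f ((ρ g).val * e * (ρ g)⁻¹.val))
  (N : Subgroup G) [N.Normal] (hQ : C (G ⧸ N)) (hinj : ∀ n ∈ N, ρ n = 1 → n = 1)
  (hN : ∀ n ∈ N, ∃ e ∈ 𝓔, InCorner e ((ρ n).val - 1))

include hdir hN in
theorem exists_e (E : Set G) (hE : E.Finite) (hEN : E ⊆ N) :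
    ∃ e ∈ 𝓔, ∀ n ∈ E, InCorner e ((ρ n).val - 1) := by
  induction E, hE using Set.Finite.induction_on with
  | empty =>
    obtain ⟨e, he, _⟩ := hN 1 (one_mem _)
    exact ⟨e, he, fun n hn => hn.elim⟩
  | @insert a s _ _ ih =>
    obtain ⟨e, he, h1⟩ := ih (fun x hx => hEN (Set.mem_insert_of_mem _ hx))
    obtain ⟨e', he', h2⟩ := hN a (hEN (Set.mem_insert _ _))
    obtain ⟨f, hf, h3, h4⟩ := hdir e he e' he'
    refine ⟨f, hf, fun n hn => ?_⟩
    rcases Set.mem_insert_iff.1 hn with rfl | hn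
    · exact h4.trans h2
    · exact h3.trans (h1 n hn)

include hC hidem hdir hGL hconj hQ hinj hN in
theorem main : C G := by
  refine Pool.Agent.R779.FJ.t_crit Pool.Agent.Y529.FJ.t_ext
    (Pool.Agent.Y961.FJ.t_perm Pool.Agent.Y529.FJ.t_ext) C hC G N hQ (fun g E hE hEN => ?_)
  obtain ⟨e, he, hEe⟩ := exists_e 𝓔 hdir ρ N hN E hE hEN
  obtain ⟨f₁, hf₁, h1⟩ := hconj g e he
  obtain ⟨f, hf, h2, h3⟩ := hdir e he f₁ hf₁
  have hu : InCorner f ((ρ g).val * e * (ρ g)⁻¹.val) := h3.trans h1
  obtain ⟨h, hh, hz⟩ := realize (ρ g).mul_inv (ρ g).inv_mul (hidem e he) (hidem f hf) h2 hu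
  -- the subgroup
  have hL : ∀ a ∈ Subgroup.closure (E ∪ (fun x => g * x * g⁻¹) '' E), ρ a ∈ cornerUnits f := by
    have hle : Subgroup.closure (E ∪ (fun x => g * x * g⁻¹) '' E) ≤ (cornerUnits f).comap ρ := by
      rw [Subgroup.closure_le]
      rintro a (ha | ⟨x, hx, rfl⟩)
      · exact mem_iff.2 (h2.trans (hEe a ha))
      · refine mem_iff.2 (hu.trans ?_)
        have h4 : (ρ (g * x * g⁻¹)).val - 1 = (ρ g).val * ((ρ x).val - 1) * (ρ g)⁻¹.val := by
          rw [map_mul, map_mul, map_inv, mul_sub, sub_mul, mul_one, Units.mul_inv, Units.val_mul,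
            Units.val_mul]
        change InCorner _ ((ρ (g * x * g⁻¹)).val - 1)
        rw [h4]
        obtain ⟨h5, h6⟩ := hEe x hx
        refine ⟨?_, ?_⟩
        · calc (ρ g).val * e * (ρ g)⁻¹.val * ((ρ g).val * ((ρ x).val - 1) * (ρ g)⁻¹.val)
              = (ρ g).val * e * ((ρ g)⁻¹.val * (ρ g).val) * ((ρ x).val - 1) * (ρ g)⁻¹.val := by
                simp only [mul_assoc]
            _ = (ρ g).val * (e * ((ρ x).val - 1)) * (ρ g)⁻¹.val := by
                rw [Units.inv_mul, mul_one]; simp only [mul_assoc]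
            _ = _ := by rw [h5]
        · calc (ρ g).val * ((ρ x).val - 1) * (ρ g)⁻¹.val * ((ρ g).val * e * (ρ g)⁻¹.val)
              = (ρ g).val * ((ρ x).val - 1) * ((ρ g)⁻¹.val * (ρ g).val) * e * (ρ g)⁻¹.val := by
                simp only [mul_assoc]
            _ = (ρ g).val * (((ρ x).val - 1) * e) * (ρ g)⁻¹.val := by
                rw [Units.inv_mul, mul_one]; simp only [mul_assoc]
            _ = _ := by rw [h6]
    exact fun a ha => hle ha
  have hLN : Subgroup.closure (E ∪ (fun x => g * x * g⁻¹) '' E) ≤ N := by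
    rw [Subgroup.closure_le]
    rintro a (ha | ⟨x, hx, rfl⟩)
    · exact hEN ha
    · exact ‹N.Normal›.conj_mem x (hEN hx) g
  have hmem : ∀ a : ↥(Subgroup.closure (E ∪ (fun x => g * x * g⁻¹) '' E)),
      ((Units.map (dH A)).comp (ρ.comp (Subgroup.subtype _))) a ∈ cornerUnits (sc f) := by
    intro a
    obtain ⟨h4, h5⟩ := hL a a.2
    change InCorner (sc f) (dH A (ρ a).val - 1)
    rw [dH_sub]
    exact ⟨mul2 (by rw [h4]; simp) (by simp) (by simp) (by simp),
      mul2 (by rw [h5]; simp) (by simp) (by simp) (by simp)⟩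
  refine ⟨cornerUnits (sc f), inferInstance,
    ((Units.map (dH A)).comp (ρ.comp (Subgroup.subtype _))).codRestrict _ hmem, ⟨h, hh⟩,
    mem_C hC (hidem f hf) (hGL f _ hf), ?_, ?_⟩
  · rw [injective_iff_map_eq_one]
    intro a ha
    have h4 : dH A (ρ a).val = 1 := congrArg (fun z => z.1.val) ha
    have h5 : (ρ a).val = 1 := by
      have h6 := congrFun (congrFun h4 0) 0
      simpa [dH] using h6
    exact Subtype.ext (hinj a (hLN a.2) (Units.ext h5))
  · intro x y hx hy
    apply Subtype.ext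
    apply Units.ext
    change dH A (ρ (y : G)).val = h.val * dH A (ρ (x : G)).val * (h⁻¹).val
    have h4 := hz _ (hEe x hx)
    rw [add_sub_cancel] at h4
    rw [h4, hy, map_mul, map_mul, map_inv, mul_sub, sub_mul, mul_one, Units.mul_inv, Units.val_mul,
      Units.val_mul, add_sub_cancel]

end main

end Pool.Agent.Helper492_FJ
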