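import Pool.Agent.Helper492_FJ.Mod

set_option autoImplicit false

namespace Pool.Agent.Helper492_FJ

open Pool.Agent.Y110.FJ

section mat

variable {R X : Type} [Ring R]

/-- the coordinates in `S` -/
noncomputable def pS (S : Finset X) : (X →₀ R) →ₗ[R] (S → R) := LinearMap.pi (fun s => Finsupp.lapply s.1)

/-- the vectors with coordinates in `S` -/
noncomputable def iS (S : Finset X) : (S → R) →ₗ[R] (X →₀ R) :=
  ∑ s : S, (Finsupp.lsingle s.1) ∘ₗ (LinearMap.proj s)

/-- the projection to the coordinates in `S` -/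
noncomputable def eS (R : Type) [Ring R] {X : Type} (S : Finset X) : Module.End R (X →₀ R) := iS S ∘ₗ pS S

theorem iS_apply (S : Finset X) (w : S → R) : iS S w = ∑ s : S, Finsupp.single s.1 (w s) := by
  unfold iS
  rw [LinearMap.sum_apply]
  rfl

theorem pS_iS (S : Finset X) : pS S ∘ₗ iS S = (LinearMap.id : (S → R) →ₗ[R] (S → R)) := by
  classical
  apply LinearMap.ext
  intro w
  funext s
  change (iS S w) s.1 = w s
  rw [iS_apply, Finsupp.finsetSum_apply, Finset.sum_eq_single s]
  · simp
  · intro t _ hts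
    rw [Finsupp.single_apply, if_neg]
    exact fun h => hts (Subtype.ext h)
  · intro h
    exact absurd (Finset.mem_univ s) h

theorem eS_eq (S : Finset X) (w : X →₀ R) (hw : ∀ x ∉ S, w x = 0) : eS R S w = w := by
  classical
  change iS S (fun s => w s.1) = w
  rw [iS_apply]
  ext x
  rw [Finsupp.finsetSum_apply]
  by_cases hx : x ∈ S
  · rw [Finset.sum_eq_single ⟨x, hx⟩]
    · simp
    · intro t _ hts
      rw [Finsupp.single_apply, if_neg]
      exact fun h => hts (Subtype.ext h)
    · intro h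
      exact absurd (Finset.mem_univ _) h
  · rw [hw x hx]
    apply Finset.sum_eq_zero
    intro t _
    rw [Finsupp.single_apply, if_neg]
    rintro rfl
    exact hx t.2

theorem eS_zero (S : Finset X) (w : X →₀ R) (hw : ∀ x ∈ S, w x = 0) : eS R S w = 0 := by
  change iS S (fun s => w s.1) = 0
  rw [iS_apply]
  apply Finset.sum_eq_zero
  intro t _
  rw [hw t.1 t.2, Finsupp.single_zero]

theorem eS_idem (S : Finset X) : IsIdempotentElem (eS R S) := by
  change (iS S ∘ₗ pS S) ∘ₗ (iS S ∘ₗ pS S) = iS S ∘ₗ pS S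
  calc (iS S ∘ₗ pS S) ∘ₗ (iS S ∘ₗ pS S) = iS S ∘ₗ (pS S ∘ₗ iS S) ∘ₗ pS S := rfl
    _ = _ := by rw [pS_iS, LinearMap.id_comp]

theorem inCorner_eS (S : Finset X) (a : Module.End R (X →₀ R))
    (h1 : ∀ y, ∀ x ∉ S, a (Finsupp.single y 1) x = 0) (h2 : ∀ y ∉ S, a (Finsupp.single y 1) = 0) :
    InCorner (eS R S) a := by
  classical
  refine ⟨?_, ?_⟩
  · apply Finsupp.lhom_ext'
    intro y
    apply LinearMap.ext_ring
    exact eS_eq S _ (h1 y)
  · apply Finsupp.lhom_ext'
    intro y
    apply LinearMap.ext_ring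
    change a (eS R S (Finsupp.single y 1)) = a (Finsupp.single y 1)
    by_cases hy : y ∈ S
    · rw [eS_eq]
      intro x hx
      rw [Finsupp.single_apply, if_neg]
      rintro rfl
      exact hx hy
    · rw [h2 y hy, eS_zero, map_zero]
      intro x hx
      rw [Finsupp.single_apply, if_neg]
      rintro rfl
      exact hy hx

theorem gl_eS {C : ∀ (G : Type) [Group G], Prop} (hC : ClosedE C)
    (hR : ∀ n : ℕ, C ((Fin n → R) ≃ₗ[R] (Fin n → R))) (S : Finset X)
    (he : IsIdempotentElem (eS R S)) : C (Matrix (Fin 2) (Fin 2) he.Corner)ˣ := by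
  let L : (Fin S.card → R) ≃ₗ[R] (S → R) := LinearEquiv.funCongrLeft R R S.equivFin
  refine gl_corner hC he (iS S ∘ₗ L.toLinearMap) (L.symm.toLinearMap ∘ₗ pS S) ?_ ?_ hR
  · calc (L.symm.toLinearMap ∘ₗ pS S) ∘ₗ (iS S ∘ₗ L.toLinearMap)
        = L.symm.toLinearMap ∘ₗ (pS S ∘ₗ iS S) ∘ₗ L.toLinearMap := rfl
      _ = LinearMap.id := by
        rw [pS_iS, LinearMap.id_comp]
        exact LinearMap.ext fun x => L.symm_apply_apply x
  · calc (iS S ∘ₗ L.toLinearMap) ∘ₗ (L.symm.toLinearMap ∘ₗ pS S)
        = iS S ∘ₗ (L.toLinearMap ∘ₗ L.symm.toLinearMap) ∘ₗ pS S := rfl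
      _ = eS R S := by
        have h2 : L.toLinearMap ∘ₗ L.symm.toLinearMap = LinearMap.id :=
          LinearMap.ext fun x => L.apply_symm_apply x
        rw [h2, LinearMap.id_comp]
        rfl

/-- groups of row- and column-finite matrices with a normal subgroup of finitary matrices -/
theorem main_mat {C : ∀ (G : Type) [Group G], Prop} (hC : ClosedE C)
    (hR : ∀ n : ℕ, C ((Fin n → R) ≃ₗ[R] (Fin n → R))) {G : Type} [Group G]
    (ρ : G →* ((X →₀ R) ≃ₗ[R] (X →₀ R)))
    (hrow : ∀ (g : G) (x : X), {y : X | ρ g (Finsupp.single y 1) x ≠ 0}.Finite)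
    (N : Subgroup G) [N.Normal] (hQ : C (G ⧸ N)) (hinj : ∀ n ∈ N, ρ n = 1 → n = 1)
    (hN : ∀ n ∈ N, {y : X | ρ n (Finsupp.single y 1) ≠ Finsupp.single y 1}.Finite) :
    C G := by
  classical
  let ρ' : G →* (Module.End R (X →₀ R))ˣ :=
    (LinearMap.GeneralLinearGroup.generalLinearEquiv R (X →₀ R)).symm.toMonoidHom.comp ρ
  have hρ : ∀ g v, (ρ' g).val v = ρ g v := fun g v => rfl
  have hρi : ∀ g v, (ρ' g)⁻¹.val v = ρ g⁻¹ v := fun g v => by
    rw [← map_inv]
    exact hρ _ _
  refine main hC {e : Module.End R (X →₀ R) | ∃ S : Finset X, e = eS R S} ?_ ?_ ?_ ρ' ?_ N hQ ?_ ?_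
  · rintro e ⟨S, rfl⟩
    exact eS_idem S
  · rintro _ ⟨S, rfl⟩ _ ⟨S', rfl⟩
    have h : ∀ T U : Finset X, T ⊆ U → InCorner (eS R U) (eS R T) := by
      intro T U hTU
      refine inCorner_eS U _ (fun y x hx => ?_) (fun y hy => ?_)
      · by_cases hy : y ∈ T
        · rw [eS_eq]
          · rw [Finsupp.single_apply, if_neg]
            rintro rfl
            exact hx (hTU hy)
          · intro z hz
            rw [Finsupp.single_apply, if_neg]
            rintro rfl
            exact hz hy
        · rw [eS_zero]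
          · rfl
          · intro z hz
            rw [Finsupp.single_apply, if_neg]
            rintro rfl
            exact hy hz
      · apply eS_zero
        intro z hz
        rw [Finsupp.single_apply, if_neg]
        rintro rfl
        exact hy (hTU hz)
    exact ⟨_, ⟨S ∪ S', rfl⟩, h _ _ Finset.subset_union_left, h _ _ Finset.subset_union_right⟩
  · rintro e he ⟨S, rfl⟩
    exact gl_eS hC hR S he
  · rintro g _ ⟨S, rfl⟩
    let T1 : Finset X := S.biUnion (fun s => (ρ g (Finsupp.single s (1 : R))).support)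
    let T2 : Finset X := S.biUnion (fun s => (hrow g⁻¹ s).toFinset)
    refine ⟨_, ⟨T1 ∪ T2, rfl⟩, inCorner_eS _ _ (fun y x hx => ?_) (fun y hy => ?_)⟩
    · change (ρ' g).val (eS R S ((ρ' g)⁻¹.val (Finsupp.single y 1))) x = 0
      rw [hρ]
      change (ρ g (iS S (pS S ((ρ' g)⁻¹.val (Finsupp.single y 1))))) x = 0
      rw [iS_apply, map_sum, Finsupp.finsetSum_apply]
      apply Finset.sum_eq_zero
      intro s _
      have h1 : x ∉ (ρ g (Finsupp.single s.1 (1 : R))).support := fun h =>
        hx (Finset.mem_union_left _ (Finset.mem_biUnion.2 ⟨s.1, s.2, h⟩))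
      have h2 : Finsupp.single s.1 (pS S ((ρ' g)⁻¹.val (Finsupp.single y 1)) s) =
          (pS S ((ρ' g)⁻¹.val (Finsupp.single y 1)) s) • Finsupp.single s.1 (1 : R) := by
        rw [Finsupp.smul_single, smul_eq_mul, mul_one]
      rw [h2, map_smul, Finsupp.smul_apply, Finsupp.notMem_support_iff.1 h1, smul_zero]
    · change (ρ' g).val (eS R S ((ρ' g)⁻¹.val (Finsupp.single y 1))) = 0
      rw [eS_zero, map_zero]
      intro s hs
      rw [hρi]
      by_contra h
      exact hy (Finset.mem_union_right _ (Finset.mem_biUnion.2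
        ⟨s, hs, (Set.Finite.mem_toFinset _).2 h⟩))
  · intro n hn h
    apply hinj n hn
    exact (LinearMap.GeneralLinearGroup.generalLinearEquiv R (X →₀ R)).symm.injective
      (h.trans (map_one _).symm)
  · intro n hn
    let B : Finset X := (hN n hn).toFinset
    let T : Finset X := B.biUnion
      (fun s => (ρ n (Finsupp.single s (1 : R)) - Finsupp.single s (1 : R)).support)
    have hB : ∀ y ∉ B, ((ρ' n).val - 1 : Module.End R (X →₀ R)) (Finsupp.single y 1) = 0 := by
      intro y hy
      have h1 : ρ n (Finsupp.single y 1) = Finsupp.single y 1 := by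
        by_contra h
        exact hy ((Set.Finite.mem_toFinset _).2 h)
      change ρ n (Finsupp.single y 1) - Finsupp.single y 1 = 0
      rw [h1, sub_self]
    refine ⟨_, ⟨B ∪ T, rfl⟩, inCorner_eS _ _ (fun y x hx => ?_) (fun y hy => ?_)⟩
    · by_cases hy : y ∈ B
      · have h1 : x ∉ (ρ n (Finsupp.single y (1 : R)) - Finsupp.single y (1 : R)).support := fun h =>
          hx (Finset.mem_union_right _ (Finset.mem_biUnion.2 ⟨y, hy, h⟩))
        exact Finsupp.notMem_support_iff.1 h1
      · rw [hB y hy]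
        rfl
    · exact hB y (fun h => hy (Finset.mem_union_left _ h))

end mat

end Pool.Agent.Helper492_FJ
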