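import Pool.Agent.Helper492_FJ.Main

set_option autoImplicit false

namespace Pool.Agent.Helper492_FJ

open Pool.Agent.Y110.FJ

section corner

variable {R V : Type} [Ring R] [AddCommGroup V] [Module R V] {e : Module.End R V}

theorem al1 {k : ℕ} (i : (Fin k → R) →ₗ[R] V) (p : V →ₗ[R] (Fin k → R)) (a b : Module.End R V)
    (hb : (i ∘ₗ p) ∘ₗ b = b) : p ∘ₗ (a ∘ₗ b) ∘ₗ i = (p ∘ₗ a ∘ₗ i) ∘ₗ (p ∘ₗ b ∘ₗ i) := by
  conv_lhs => rw [← hb]
  rfl

theorem al2 {k : ℕ} (i : (Fin k → R) →ₗ[R] V) (p : V →ₗ[R] (Fin k → R)) (a : Module.End R V)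
    (h1 : (i ∘ₗ p) ∘ₗ a = a) (h2 : a ∘ₗ (i ∘ₗ p) = a) : a = i ∘ₗ (p ∘ₗ a ∘ₗ i) ∘ₗ p := by
  conv_lhs => rw [← h1, ← h2]
  rfl

/-- the corner of an idempotent with free image acts on this image -/
def alphaHom (he : IsIdempotentElem e) {k : ℕ} (i : (Fin k → R) →ₗ[R] V) (p : V →ₗ[R] (Fin k → R))
    (hpi : p ∘ₗ i = LinearMap.id) (hip : i ∘ₗ p = e) : he.Corner →+* Module.End R (Fin k → R) where
  toFun a := p ∘ₗ (a.1 : Module.End R V) ∘ₗ i
  map_one' := by
    change p ∘ₗ e ∘ₗ i = LinearMap.id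
    rw [← hip, LinearMap.comp_assoc, hpi, LinearMap.comp_id, hpi]
  map_mul' a b := by
    have hb : e * b.1 = b.1 := ((Subsemigroup.mem_corner_iff he).1 b.2).1
    exact al1 i p a.1 b.1 ((congrArg (fun z : Module.End R V => z ∘ₗ b.1) hip).trans hb)
  map_zero' := by
    change p ∘ₗ (0 : Module.End R V) ∘ₗ i = 0
    rw [LinearMap.zero_comp, LinearMap.comp_zero]
  map_add' a b := by
    change p ∘ₗ (a.1 + b.1 : Module.End R V) ∘ₗ i = _
    rw [LinearMap.add_comp, LinearMap.comp_add]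

theorem alphaHom_injective (he : IsIdempotentElem e) {k : ℕ} (i : (Fin k → R) →ₗ[R] V)
    (p : V →ₗ[R] (Fin k → R)) (hpi : p ∘ₗ i = LinearMap.id) (hip : i ∘ₗ p = e) :
    Function.Injective (alphaHom he i p hpi hip) := by
  intro a b h
  apply Subtype.ext
  have h1 : ∀ z : he.Corner, z.1 = i ∘ₗ (p ∘ₗ (z.1 : Module.End R V) ∘ₗ i) ∘ₗ p := by
    intro z
    obtain ⟨h2, h3⟩ := (Subsemigroup.mem_corner_iff he).1 z.2
    exact al2 i p z.1 ((congrArg (fun w : Module.End R V => w ∘ₗ z.1) hip).trans h2)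
      ((congrArg (fun w : Module.End R V => z.1 ∘ₗ w) hip).trans h3)
  rw [h1 a, h1 b]
  exact congrArg (fun w => i ∘ₗ w ∘ₗ p) h

theorem gl_corner {C : ∀ (G : Type) [Group G], Prop} (hC : ClosedE C) (he : IsIdempotentElem e) {k : ℕ}
    (i : (Fin k → R) →ₗ[R] V) (p : V →ₗ[R] (Fin k → R)) (hpi : p ∘ₗ i = LinearMap.id)
    (hip : i ∘ₗ p = e) (hR : ∀ n : ℕ, C ((Fin n → R) ≃ₗ[R] (Fin n → R))) :
    C (Matrix (Fin 2) (Fin 2) he.Corner)ˣ := by
  let E1 : Matrix (Fin 2) (Fin 2) he.Corner →+* Matrix (Fin 2) (Fin 2) (Module.End R (Fin k → R)) :=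
    (alphaHom he i p hpi hip).mapMatrix
  have hE1 : Function.Injective E1 := by
    intro M M' h
    ext a b
    apply alphaHom_injective he i p hpi hip
    exact congrFun (congrFun h a) b
  let E2 := (endVecRingEquivMatrixEnd (Fin 2) R (Fin k → R)).symm
  let L : (Fin 2 → Fin k → R) ≃ₗ[R] (Fin (2 * k) → R) :=
    (LinearEquiv.curry R R (Fin 2) (Fin k)).symm.trans (LinearEquiv.funCongrLeft R R finProdFinEquiv.symm)
  let E3 : Module.End R (Fin 2 → Fin k → R) ≃+* Module.End R (Fin (2 * k) → R) := L.conjRingEquiv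
  let F : Matrix (Fin 2) (Fin 2) he.Corner →+* Module.End R (Fin (2 * k) → R) :=
    (E3 : Module.End R (Fin 2 → Fin k → R) →+* _).comp ((E2 : _ →+* _).comp E1)
  have hF : Function.Injective F := E3.injective.comp (E2.injective.comp hE1)
  refine hC.base.of_injective _ _
    ((LinearMap.GeneralLinearGroup.generalLinearEquiv R (Fin (2 * k) → R)).toMonoidHom.comp
      (Units.map (F : Matrix (Fin 2) (Fin 2) he.Corner →* Module.End R (Fin (2 * k) → R)))) ?_ (hR (2 * k))
  exact (MulEquiv.injective (LinearMap.GeneralLinearGroup.generalLinearEquiv R (Fin (2 * k) → R))).comp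
    (Units.map_injective hF)

end corner

section vs

variable {K V : Type} [DivisionRing K] [AddCommGroup V] [Module K V]

/-- two endomorphisms of finite rank lie in the corner of an idempotent of finite rank -/
theorem cover (a b : Module.End K V) (ha : FiniteDimensional K (LinearMap.range a))
    (hb : FiniteDimensional K (LinearMap.range b)) :
    ∃ f : Module.End K V, IsIdempotentElem f ∧ FiniteDimensional K (LinearMap.range f) ∧
      InCorner f a ∧ InCorner f b := by
  let Z : Submodule K V := LinearMap.ker a ⊓ LinearMap.ker b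
  obtain ⟨W, hW⟩ := Submodule.exists_isCompl Z
  have hWf : FiniteDimensional K W := by
    have h1 : Function.Injective ((a.rangeRestrict.prod b.rangeRestrict).comp W.subtype) := by
      rw [← LinearMap.ker_eq_bot, LinearMap.ker_eq_bot']
      intro w hw
      have h2 : a w = 0 := congrArg (fun z => ((z.1 : LinearMap.range a) : V)) hw
      have h3 : b w = 0 := congrArg (fun z => ((z.2 : LinearMap.range b) : V)) hw
      have h4 : (w : V) ∈ Z ⊓ W := ⟨⟨h2, h3⟩, w.2⟩
      rw [hW.inf_eq_bot] at h4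
      exact Subtype.ext ((Submodule.mem_bot K).1 h4)
    exact Module.Finite.of_injective _ h1
  let U : Submodule K V := W ⊔ (LinearMap.range a ⊔ LinearMap.range b)
  have hUZ : U ⊔ Z = ⊤ := by
    rw [eq_top_iff, ← hW.sup_eq_top]
    exact sup_le le_sup_right (le_sup_left.trans le_sup_left)
  obtain ⟨T, hT⟩ := Submodule.exists_isCompl (U ⊓ Z)
  have h1 : (U ⊓ Z) ⊔ (T ⊓ Z) = Z := by
    rw [← sup_inf_assoc_of_le T (inf_le_right : U ⊓ Z ≤ Z), hT.sup_eq_top, top_inf_eq]
  have hc : IsCompl U (T ⊓ Z) := by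
    refine IsCompl.of_eq ?_ ?_
    · rw [inf_comm T Z, ← inf_assoc, hT.inf_eq_bot]
    · calc U ⊔ T ⊓ Z = (U ⊔ U ⊓ Z) ⊔ T ⊓ Z := by rw [sup_eq_left.2 (inf_le_left : U ⊓ Z ≤ U)]
        _ = U ⊔ (U ⊓ Z ⊔ T ⊓ Z) := sup_assoc _ _ _
        _ = ⊤ := by rw [h1, hUZ]
  refine ⟨U.projection (T ⊓ Z) hc, ?_, ?_, ⟨?_, ?_⟩, ⟨?_, ?_⟩⟩
  · ext x
    exact Submodule.projection_apply_of_mem_left hc (Submodule.projection_apply_mem hc x)
  · rw [Submodule.range_projection]
    infer_instance
  · ext x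
    exact Submodule.projection_apply_of_mem_left hc
      ((le_sup_left.trans le_sup_right : LinearMap.range a ≤ U) ⟨x, rfl⟩)
  · ext x
    have h2 : x - U.projection (T ⊓ Z) hc x ∈ T ⊓ Z := by
      rw [← Submodule.projection_apply_eq_zero_iff hc, map_sub,
        Submodule.projection_apply_of_mem_left hc (Submodule.projection_apply_mem hc x), sub_self]
    have h3 : a (x - U.projection (T ⊓ Z) hc x) = 0 := h2.2.1
    rw [map_sub, sub_eq_zero] at h3
    exact h3.symm
  · ext x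
    exact Submodule.projection_apply_of_mem_left hc
      ((le_sup_right.trans le_sup_right : LinearMap.range b ≤ U) ⟨x, rfl⟩)
  · ext x
    have h2 : x - U.projection (T ⊓ Z) hc x ∈ T ⊓ Z := by
      rw [← Submodule.projection_apply_eq_zero_iff hc, map_sub,
        Submodule.projection_apply_of_mem_left hc (Submodule.projection_apply_mem hc x), sub_self]
    have h3 : b (x - U.projection (T ⊓ Z) hc x) = 0 := h2.2.2
    rw [map_sub, sub_eq_zero] at h3
    exact h3.symm

/-- groups of linear automorphisms with a normal subgroup of automorphisms `1 + a`, `a` of finite rank -/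
theorem main_vs {C : ∀ (G : Type) [Group G], Prop} (hC : ClosedE C)
    (hK : ∀ n : ℕ, C ((Fin n → K) ≃ₗ[K] (Fin n → K))) {G : Type} [Group G] (ρ : G →* (V ≃ₗ[K] V))
    (N : Subgroup G) [N.Normal] (hQ : C (G ⧸ N)) (hinj : ∀ n ∈ N, ρ n = 1 → n = 1)
    (hN : ∀ n ∈ N, FiniteDimensional K (LinearMap.range ((ρ n : V →ₗ[K] V) - LinearMap.id))) :
    C G := by
  let ρ' : G →* (Module.End K V)ˣ :=
    (LinearMap.GeneralLinearGroup.generalLinearEquiv K V).symm.toMonoidHom.comp ρ
  have hρ : ∀ g, (ρ' g).val = (ρ g : V →ₗ[K] V) := fun g => rfl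
  refine main hC {e : Module.End K V | IsIdempotentElem e ∧ FiniteDimensional K (LinearMap.range e)}
    (fun e he => he.1) ?_ ?_ ρ' ?_ N hQ ?_ ?_
  · intro e he e' he'
    obtain ⟨f, h1, h2, h3, h4⟩ := cover e e' he.2 he'.2
    exact ⟨f, ⟨h1, h2⟩, h3, h4⟩
  · intro e he h
    have := h.2
    let b := Module.finBasis K (LinearMap.range e)
    let B : LinearMap.range e ≃ₗ[K] (Fin (Module.finrank K (LinearMap.range e)) → K) := b.equivFun
    refine gl_corner hC he ((LinearMap.range e).subtype ∘ₗ B.symm.toLinearMap)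
      (B.toLinearMap ∘ₗ e.rangeRestrict) ?_ ?_ hK
    · have h1 : e.rangeRestrict ∘ₗ (LinearMap.range e).subtype = LinearMap.id := by
        ext ⟨_, x, rfl⟩
        exact congrArg (fun w : Module.End K V => w x) (he : e * e = e)
      calc (B.toLinearMap ∘ₗ e.rangeRestrict) ∘ₗ ((LinearMap.range e).subtype ∘ₗ B.symm.toLinearMap)
          = B.toLinearMap ∘ₗ (e.rangeRestrict ∘ₗ (LinearMap.range e).subtype) ∘ₗ B.symm.toLinearMap := rfl
        _ = LinearMap.id := by
          rw [h1, LinearMap.id_comp]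
          ext1 x
          simp
    · calc ((LinearMap.range e).subtype ∘ₗ B.symm.toLinearMap) ∘ₗ (B.toLinearMap ∘ₗ e.rangeRestrict)
          = (LinearMap.range e).subtype ∘ₗ (B.symm.toLinearMap ∘ₗ B.toLinearMap) ∘ₗ e.rangeRestrict := rfl
        _ = e := by
          have h2 : B.symm.toLinearMap ∘ₗ B.toLinearMap = LinearMap.id := by
            ext1 x
            simp
          rw [h2, LinearMap.id_comp]
          rfl
  · rintro g e ⟨he, hef⟩
    have he' : e * e = e := he
    have hid : (ρ' g).val * e * (ρ' g)⁻¹.val * ((ρ' g).val * e * (ρ' g)⁻¹.val) =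
        (ρ' g).val * e * (ρ' g)⁻¹.val := by
      calc (ρ' g).val * e * (ρ' g)⁻¹.val * ((ρ' g).val * e * (ρ' g)⁻¹.val)
          = (ρ' g).val * e * ((ρ' g)⁻¹.val * (ρ' g).val) * e * (ρ' g)⁻¹.val := by
            simp only [mul_assoc]
        _ = (ρ' g).val * (e * e) * (ρ' g)⁻¹.val := by
            rw [Units.inv_mul, mul_one]; simp only [mul_assoc]
        _ = _ := by rw [he']
    refine ⟨(ρ' g).val * e * (ρ' g)⁻¹.val, ⟨hid, ?_⟩, hid, hid⟩
    have h1 : LinearMap.range ((ρ' g).val * e * (ρ' g)⁻¹.val : Module.End K V) ≤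
        (LinearMap.range e).map (ρ' g).val := by
      rintro _ ⟨x, rfl⟩
      exact ⟨_, ⟨_, rfl⟩, rfl⟩
    exact Submodule.finiteDimensional_of_le h1
  · intro n hn h
    apply hinj n hn
    exact (LinearMap.GeneralLinearGroup.generalLinearEquiv K V).symm.injective (h.trans (map_one _).symm)
  · intro n hn
    obtain ⟨f, h1, h2, h3, _⟩ := cover ((ρ' n).val - 1) ((ρ' n).val - 1) (hN n hn) (hN n hn)
    exact ⟨f, ⟨h1, h2⟩, h3⟩

end vs

end Pool.Agent.Helper492_FJ
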