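import Pool.Agent.Helper492_FJ.Reg

set_option autoImplicit false

namespace Pool.Agent.Helper492_FJ

open Pool.Agent.Y110.FJ

section

variable {R S : Type} [Ring R] [Ring S]

/-- a homomorphism of rings without unit on general linear groups -/
def nuHom (θ : R →ₙ+* S) (m : ℕ) : (Matrix (Fin m) (Fin m) R)ˣ →* Matrix (Fin m) (Fin m) S where
  toFun v := v.val.map θ + (1 - scm m (θ 1))
  map_one' := by
    ext i j
    change θ ((1 : Matrix (Fin m) (Fin m) R) i j) + ((1 : Matrix (Fin m) (Fin m) S) i j -
      scm m (θ 1) i j) = (1 : Matrix (Fin m) (Fin m) S) i j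
    rw [Matrix.one_apply, Matrix.one_apply, scm, Matrix.diagonal_apply]
    split_ifs
    · abel
    · rw [map_zero]
      simp
  map_mul' v w := by
    have h1 : ∀ z : Matrix (Fin m) (Fin m) R, InCorner (scm m (θ 1)) (z.map θ) :=
      fun z => scm_corner_iff.2 fun i j => ⟨by
        rw [Matrix.map_apply, ← map_mul, one_mul], by rw [Matrix.map_apply, ← map_mul, mul_one]⟩
    have h2 : (v.val * w.val).map θ = (v.val.map θ * w.val.map θ : Matrix (Fin m) (Fin m) S) := by
      ext i j
      rw [Matrix.map_apply, Matrix.mul_apply, Matrix.mul_apply, map_sum]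
      exact Finset.sum_congr rfl fun k _ => map_mul θ _ _
    obtain ⟨a1, a2⟩ := h1 v.val
    obtain ⟨b1, b2⟩ := h1 w.val
    have h4 : scm m (θ 1) * scm m (θ 1) = scm m (θ 1) :=
      scm_idem (show θ 1 * θ 1 = θ 1 by rw [← map_mul, one_mul])
    change (v.val * w.val).map θ + (1 - scm m (θ 1)) = _
    rw [h2, add_mul, mul_add, mul_add, mul_sub, mul_one, a2, sub_self, add_zero, sub_mul, one_mul, b1,
      sub_self, zero_add, mul_sub, sub_mul, sub_mul, mul_one, mul_one, one_mul, h4, sub_self, sub_zero]

theorem nuHom_injective (θ : R →ₙ+* S) (hθ : Function.Injective θ) (m : ℕ) :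
    Function.Injective (nuHom θ m) := by
  intro v w h
  apply Units.ext
  have h1 : v.val.map θ = (w.val.map θ : Matrix (Fin m) (Fin m) S) := add_right_cancel h
  ext i j
  exact hθ (congrFun (congrFun h1 i) j)

end

section mor

variable {B : Type} [Ring B] {n : ℕ} {e f : B}

theorem sum_val {e : B} (he : IsIdempotentElem e) {ι : Type} (s : Finset ι) (F : ι → he.Corner) :
    (∑ k ∈ s, F k).1 = ∑ k ∈ s, (F k).1 := by
  classical
  induction s using Finset.induction_on with
  | empty => rfl
  | insert a s ha ih =>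
    rw [Finset.sum_insert ha, Finset.sum_insert ha, ← ih]
    rfl

/-- the corner of `f = ∑ a i * e * b i` in a matrix ring over the corner of `e` -/
def morHom (he : IsIdempotentElem e) (hf : IsIdempotentElem f) (a b : Fin n → B)
    (h : f = ∑ i, a i * e * b i) : hf.Corner →ₙ+* Matrix (Fin n) (Fin n) he.Corner where
  toFun x := Matrix.of fun i j => ⟨e * (b i * x.1 * a j) * e, b i * x.1 * a j, rfl⟩
  map_mul' x y := by
    ext i k
    apply Subtype.ext
    rw [Matrix.mul_apply, sum_val]
    change e * (b i * (x.1 * y.1) * a k) * e =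
      ∑ j, e * (b i * x.1 * a j) * e * (e * (b j * y.1 * a k) * e)
    have h1 : ∀ j, e * (b i * x.1 * a j) * e * (e * (b j * y.1 * a k) * e) =
        e * (b i * x.1) * (a j * e * b j) * (y.1 * a k) * e := by
      intro j
      have he' : e * e = e := he
      calc e * (b i * x.1 * a j) * e * (e * (b j * y.1 * a k) * e)
          = e * (b i * x.1 * a j) * (e * e) * (b j * y.1 * a k) * e := by simp only [mul_assoc]
        _ = _ := by rw [he']; simp only [mul_assoc]
    rw [Finset.sum_congr rfl fun j _ => h1 j, ← Finset.sum_mul, ← Finset.sum_mul, ← Finset.mul_sum, ← h]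
    have hy : f * y.1 = y.1 := (corner_in hf y).1
    calc e * (b i * (x.1 * y.1) * a k) * e = e * (b i * x.1) * (y.1) * a k * e := by
          simp only [mul_assoc]
      _ = e * (b i * x.1) * (f * y.1) * a k * e := by rw [hy]
      _ = _ := by simp only [mul_assoc]
  map_zero' := by
    ext i k
    apply Subtype.ext
    change e * (b i * 0 * a k) * e = 0
    simp
  map_add' x y := by
    ext i k
    apply Subtype.ext
    change e * (b i * (x.1 + y.1) * a k) * e = e * (b i * x.1 * a k) * e + e * (b i * y.1 * a k) * e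
    simp only [mul_add, add_mul]

theorem morHom_injective (he : IsIdempotentElem e) (hf : IsIdempotentElem f) (a b : Fin n → B)
    (h : f = ∑ i, a i * e * b i) : Function.Injective (morHom he hf a b h) := by
  intro x y hxy
  apply Subtype.ext
  have h1 : ∀ z : hf.Corner, z.1 = ∑ i, ∑ j, a i * ((morHom he hf a b h z) i j).1 * b j := by
    intro z
    have h2 : ∀ i j, a i * ((morHom he hf a b h z) i j).1 * b j =
        (a i * e * b i) * z.1 * (a j * e * b j) := by
      intro i j
      change a i * (e * (b i * z.1 * a j) * e) * b j = _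
      simp only [mul_assoc]
    simp only [h2]
    have h3 : ∀ i, ∑ j, (a i * e * b i) * z.1 * (a j * e * b j) = (a i * e * b i) * z.1 * f := by
      intro i
      rw [← Finset.mul_sum, ← h]
    simp only [h3]
    rw [← Finset.sum_mul, ← Finset.sum_mul, ← h, (corner_in hf z).1, (corner_in hf z).2]
  rw [h1 x, h1 y, hxy]

theorem glCorner_mor {C : ∀ (G : Type) [Group G], Prop} (hC : ClosedE C) (he : IsIdempotentElem e)
    (a b : Fin n → B) (h : f = ∑ i, a i * e * b i) (hGL : GLCorner C e) : GLCorner C f := by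
  intro hf m
  let E2 : Matrix (Fin m) (Fin m) (Matrix (Fin n) (Fin n) he.Corner) ≃+*
      Matrix (Fin m × Fin n) (Fin m × Fin n) he.Corner := Matrix.compRingEquiv _ _ _
  let E3 : Matrix (Fin m × Fin n) (Fin m × Fin n) he.Corner ≃+*
      Matrix (Fin (m * n)) (Fin (m * n)) he.Corner :=
    (Matrix.reindexAlgEquiv ℤ he.Corner finProdFinEquiv).toRingEquiv
  let F : Matrix (Fin m) (Fin m) (Matrix (Fin n) (Fin n) he.Corner) →+*
      Matrix (Fin (m * n)) (Fin (m * n)) he.Corner := E3.toRingHom.comp E2.toRingHom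
  have hF : Function.Injective F := E3.injective.comp E2.injective
  have h1 : Function.Injective (nuHom (morHom he hf a b h) m).toHomUnits := by
    intro v w hvw
    exact nuHom_injective _ (morHom_injective he hf a b h) m (congrArg Units.val hvw)
  refine hC.base.of_injective _ _
    ((Units.map (F : Matrix (Fin m) (Fin m) (Matrix (Fin n) (Fin n) he.Corner) →*
      Matrix (Fin (m * n)) (Fin (m * n)) he.Corner)).comp (nuHom (morHom he hf a b h) m).toHomUnits)
    ((Units.map_injective hF).comp h1) (hGL he (m * n))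

end mor

section final

variable {A : Type} [Ring A] {C : ∀ (G : Type) [Group G], Prop}

/-- the ideal generated by `J` and `e` -/
def addIdeal (J : TwoSidedIdeal A) (e : A) : TwoSidedIdeal A :=
  TwoSidedIdeal.mk' {x | ∃ (n : ℕ) (a b : Fin n → A), x - ∑ i, a i * e * b i ∈ J}
    ⟨0, fun _ => 0, fun _ => 0, by simpa using J.zero_mem⟩
    (by
      rintro x y ⟨n, a, b, h⟩ ⟨n', a', b', h'⟩
      refine ⟨n + n', Fin.append a a', Fin.append b b', ?_⟩
      rw [Fin.sum_univ_add]
      simp only [Fin.append_left, Fin.append_right]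
      rw [add_sub_add_comm]
      exact J.add_mem h h')
    (by
      rintro x ⟨n, a, b, h⟩
      refine ⟨n, fun i => - a i, b, ?_⟩
      simp only [neg_mul, Finset.sum_neg_distrib, ← neg_sub']
      exact J.neg_mem h)
    (by
      rintro x y ⟨n, a, b, h⟩
      refine ⟨n, fun i => x * a i, b, ?_⟩
      have h1 : x * y - ∑ i, x * a i * e * b i = x * (y - ∑ i, a i * e * b i) := by
        rw [mul_sub, Finset.mul_sum]
        simp only [mul_assoc]
      rw [h1]
      exact J.mul_mem_left _ _ h)
    (by
      rintro x y ⟨n, a, b, h⟩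
      refine ⟨n, a, fun i => b i * y, ?_⟩
      have h1 : x * y - ∑ i, a i * e * (b i * y) = (x - ∑ i, a i * e * b i) * y := by
        rw [sub_mul, Finset.sum_mul]
        simp only [mul_assoc]
      rw [h1]
      exact J.mul_mem_right _ _ h)

theorem mem_addIdeal {J : TwoSidedIdeal A} {e x : A} : x ∈ addIdeal J e ↔
    ∃ (n : ℕ) (a b : Fin n → A), x - ∑ i, a i * e * b i ∈ J :=
  TwoSidedIdeal.mem_mk' _ _ _ _ _ _ x

/-- **general linear groups over regular rings** -/
theorem regular_gl (hC : ClosedE C) (hreg : Regular A)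
    (h : ∀ J : TwoSidedIdeal A, J ≠ ⊤ → ∃ e : A, e ∉ J ∧ IsIdempotentElem e ∧
      GLCorner C (J.ringCon.mk' e)) : Strat C (⊤ : TwoSidedIdeal A) := by
  refine strat_top hreg fun J hJ => ?_
  obtain ⟨e, he, hid, hGL⟩ := h J hJ
  have hk : ∀ x ∈ J, J.ringCon.mk' x = 0 := by
    intro x hx
    rw [← (RingCon.mk' J.ringCon).map_zero]
    exact (RingCon.eq _).2 ((TwoSidedIdeal.mem_iff _ _).1 hx)
  refine ⟨addIdeal J e, lt_of_le_of_ne ?_ ?_, ?_⟩
  · intro x hx
    exact mem_addIdeal.2 ⟨0, fun _ => 0, fun _ => 0, by simpa using hx⟩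
  · intro h1
    apply he
    rw [h1]
    exact mem_addIdeal.2 ⟨1, fun _ => 1, fun _ => 1, by simpa using J.zero_mem⟩
  · intro f hf _
    obtain ⟨n, a, b, hab⟩ := mem_addIdeal.1 hf
    refine glCorner_mor hC (hid.map J.ringCon.mk') (fun i => J.ringCon.mk' (a i))
      (fun i => J.ringCon.mk' (b i)) ?_ hGL
    have h1 := hk _ hab
    rw [map_sub, sub_eq_zero, map_sum] at h1
    rw [h1]
    exact Finset.sum_congr rfl fun i _ => by rw [map_mul, map_mul]

end final

end Pool.Agent.Helper492_FJ
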