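import Pool.Agent.Helper492_FJ.Strat

set_option autoImplicit false

namespace Pool.Agent.Helper492_FJ

open Pool.Agent.Y110.FJ

section

variable {A : Type} [Ring A]

/-- von Neumann regular rings -/
def Regular (A : Type) [Ring A] : Prop := ∀ a : A, ∃ b : A, a * b * a = a

theorem reg_right (hreg : Regular A) (J : TwoSidedIdeal A) {e x : A} (he : e * e = e) (heJ : e ∈ J)
    (hx : x ∈ J) : ∃ e' ∈ J, e' * e' = e' ∧ e' * e = e ∧ e' * x = x := by
  obtain ⟨z, hz⟩ : ∃ z, z = (1 - e) * x := ⟨_, rfl⟩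
  obtain ⟨y, hy⟩ := hreg z
  have h1 : e * z = 0 := by rw [hz, ← mul_assoc, mul_sub, mul_one, he, sub_self, zero_mul]
  have h2 : (1 - e) * z = z := by rw [sub_mul, one_mul, h1, sub_zero]
  have h3 : (1 - e) * e = 0 := by rw [sub_mul, one_mul, he, sub_self]
  obtain ⟨g, hg⟩ : ∃ g, g = z * y * (1 - e) := ⟨_, rfl⟩
  have hge : g * e = 0 := by rw [hg, mul_assoc, h3, mul_zero]
  have heg : e * g = 0 := by rw [hg, ← mul_assoc, ← mul_assoc, h1, zero_mul, zero_mul]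
  have hgg : g * g = g := by
    calc g * g = z * y * ((1 - e) * z) * y * (1 - e) := by rw [hg]; simp only [mul_assoc]
      _ = (z * y * z) * y * (1 - e) := by rw [h2]
      _ = g := by rw [hy, hg]
  have hzJ : z ∈ J := by rw [hz]; exact J.mul_mem_left _ _ hx
  refine ⟨e + g, J.add_mem heJ ?_, ?_, ?_, ?_⟩
  · rw [hg]; exact J.mul_mem_right _ _ (J.mul_mem_right _ _ hzJ)
  · rw [mul_add, add_mul, add_mul, he, hge, heg, hgg, add_zero, zero_add]
  · rw [add_mul, he, hge, add_zero]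
  · have h4 : g * x = z := by rw [hg, mul_assoc, ← hz, hy]
    rw [add_mul, h4, hz, sub_mul, one_mul, add_sub_cancel]

theorem reg_left (hreg : Regular A) (J : TwoSidedIdeal A) {f x : A} (hf : f * f = f) (hfJ : f ∈ J)
    (hx : x ∈ J) : ∃ f' ∈ J, f' * f' = f' ∧ f' * f = f ∧ f * f' = f ∧ x * f' = x := by
  obtain ⟨z, hz⟩ : ∃ z, z = x * (1 - f) := ⟨_, rfl⟩
  obtain ⟨y, hy⟩ := hreg z
  have h1 : z * f = 0 := by rw [hz, mul_assoc, sub_mul, one_mul, hf, sub_self, mul_zero]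
  have h2 : z * (1 - f) = z := by rw [mul_sub, mul_one, h1, sub_zero]
  have h3 : f * (1 - f) = 0 := by rw [mul_sub, mul_one, hf, sub_self]
  obtain ⟨g, hg⟩ : ∃ g, g = (1 - f) * y * z := ⟨_, rfl⟩
  have hgf : g * f = 0 := by rw [hg, mul_assoc, h1, mul_zero]
  have hfg : f * g = 0 := by rw [hg, ← mul_assoc, ← mul_assoc, h3, zero_mul, zero_mul]
  have hgg : g * g = g := by
    calc g * g = (1 - f) * y * (z * (1 - f)) * y * z := by rw [hg]; simp only [mul_assoc]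
      _ = (1 - f) * y * (z * y * z) := by rw [h2]; simp only [mul_assoc]
      _ = g := by rw [hy, hg]
  have hzJ : z ∈ J := by rw [hz]; exact J.mul_mem_right _ _ hx
  refine ⟨f + g, J.add_mem hfJ ?_, ?_, ?_, ?_, ?_⟩
  · rw [hg]; exact J.mul_mem_left _ _ hzJ
  · rw [mul_add, add_mul, add_mul, hf, hgf, hfg, hgg, add_zero, zero_add]
  · rw [add_mul, hf, hgf, add_zero]
  · rw [mul_add, hf, hfg, add_zero]
  · have h4 : x * g = z := by rw [hg, ← mul_assoc, ← mul_assoc, ← hz, hy]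
    rw [mul_add, h4, hz, mul_sub, mul_one, add_sub_cancel]

/-- the ideals of a regular ring have local units -/
theorem localUnits_of_regular (hreg : Regular A) (J : TwoSidedIdeal A) : LocalUnits J := by
  intro E hE hEJ
  have h1 : ∃ e ∈ J, e * e = e ∧ ∀ a ∈ E, e * a = a := by
    induction E, hE using Set.Finite.induction_on with
    | empty => exact ⟨0, zero_mem _, by simp, fun a ha => ha.elim⟩
    | @insert b s _ _ ih =>
      obtain ⟨e, heJ, he, h⟩ := ih (fun x hx => hEJ x (Set.mem_insert_of_mem _ hx))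
      obtain ⟨e', h2, h3, h4, h5⟩ := reg_right hreg J he heJ (hEJ b (Set.mem_insert _ _))
      refine ⟨e', h2, h3, fun a ha => ?_⟩
      rcases Set.mem_insert_iff.1 ha with rfl | ha
      · exact h5
      · rw [← h a ha, ← mul_assoc, h4]
  have h2 : ∃ f ∈ J, f * f = f ∧ ∀ a ∈ E, a * f = a := by
    clear h1
    induction E, hE using Set.Finite.induction_on with
    | empty => exact ⟨0, zero_mem _, by simp, fun a ha => ha.elim⟩
    | @insert b s _ _ ih =>
      obtain ⟨f, hfJ, hf, h⟩ := ih (fun x hx => hEJ x (Set.mem_insert_of_mem _ hx))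
      obtain ⟨f', h2, h3, _, h4, h5⟩ := reg_left hreg J hf hfJ (hEJ b (Set.mem_insert _ _))
      refine ⟨f', h2, h3, fun a ha => ?_⟩
      rcases Set.mem_insert_iff.1 ha with rfl | ha
      · exact h5
      · rw [← h a ha, mul_assoc, h4]
  obtain ⟨e, heJ, he, h1⟩ := h1
  obtain ⟨f, hfJ, hf, h2⟩ := h2
  obtain ⟨k, hkJ, hk, h3, _, h4⟩ := reg_left hreg J he heJ hfJ
  refine ⟨k, hkJ, hk, fun a ha => ⟨?_, ?_⟩⟩
  · rw [← h1 a ha, ← mul_assoc, h3]
  · rw [← h2 a ha, mul_assoc, h4]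

variable {C : ∀ (G : Type) [Group G], Prop}

/-- regular rings in which every proper ideal can be enlarged -/
theorem strat_top (hreg : Regular A)
    (h : ∀ J : TwoSidedIdeal A, J ≠ ⊤ → ∃ J', J < J' ∧
      ∀ e ∈ J', IsIdempotentElem e → GLCorner C (J.ringCon.mk' e)) :
    Strat C (⊤ : TwoSidedIdeal A) := by
  have hz : ∃ J ∈ {J : TwoSidedIdeal A | Strat C J}, ∀ J' ∈ {J : TwoSidedIdeal A | Strat C J},
      J ≤ J' → J' = J := by
    have h0 : Strat C (⊥ : TwoSidedIdeal A) := Strat.zero _ fun a ha => (TwoSidedIdeal.mem_bot _).1 ha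
    obtain ⟨J, _, hJ⟩ := zorn_le_nonempty₀ {J : TwoSidedIdeal A | Strat C J} (fun c hc hchain y hy => by
      have hadd : ∀ {x z : A}, (∃ I ∈ c, x ∈ I) → (∃ I ∈ c, z ∈ I) → ∃ I ∈ c, x ∈ I ∧ z ∈ I := by
        rintro x z ⟨I, hI, hx⟩ ⟨I', hI', hz⟩
        rcases hchain.total hI hI' with h1 | h1
        · exact ⟨I', hI', h1 hx, hz⟩
        · exact ⟨I, hI, hx, h1 hz⟩
      let U : TwoSidedIdeal A := TwoSidedIdeal.mk' {x | ∃ I ∈ c, x ∈ I} ⟨y, hy, zero_mem _⟩
        (fun hx hz => by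
          obtain ⟨I, hI, h1, h2⟩ := hadd hx hz
          exact ⟨I, hI, I.add_mem h1 h2⟩)
        (fun ⟨I, hI, h1⟩ => ⟨I, hI, I.neg_mem h1⟩)
        (fun ⟨I, hI, h1⟩ => ⟨I, hI, I.mul_mem_left _ _ h1⟩)
        (fun ⟨I, hI, h1⟩ => ⟨I, hI, I.mul_mem_right _ _ h1⟩)
      have hU : ∀ a, a ∈ U ↔ ∃ I ∈ c, a ∈ I := fun a => TwoSidedIdeal.mem_mk' _ _ _ _ _ _ a
      refine ⟨U, Strat.union c U (fun i => i.1) ⟨⟨y, hy⟩⟩ ?_ ?_ (fun i => hc i.2), ?_⟩
      · rintro ⟨I, hI⟩ ⟨I', hI'⟩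
        rcases hchain.total hI hI' with h1 | h1
        · exact ⟨⟨I', hI'⟩, h1, le_rfl⟩
        · exact ⟨⟨I, hI⟩, le_rfl, h1⟩
      · intro a
        rw [hU]
        exact ⟨fun ⟨I, hI, ha⟩ => ⟨⟨I, hI⟩, ha⟩, fun ⟨i, ha⟩ => ⟨i.1, i.2, ha⟩⟩
      · intro I hI a ha
        exact (hU a).2 ⟨I, hI, ha⟩) ⊥ h0
    exact ⟨J, hJ.prop, fun J' h1 h2 => (hJ.eq_of_le h1 h2).symm⟩
  obtain ⟨J, hJ, hmax⟩ := hz
  by_cases hT : J = ⊤
  · rw [← hT]
    exact hJ
  · obtain ⟨J', hlt, hGL⟩ := h J hT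
    have h1 : Strat C J' := by
      refine Strat.step J J' _ J.ringCon.mk' hJ hlt.le (fun a _ => ?_) (localUnits_of_regular hreg J') hGL
      rw [TwoSidedIdeal.mem_iff, ← (RingCon.mk' J.ringCon).map_zero]
      exact (RingCon.eq _).symm
    exact absurd (hmax J' h1 hlt.le) hlt.ne'

/-- the general linear groups of a ring whose unit ideal is stratified -/
theorem gl_of_strat_top (hC : ClosedE C) (h : Strat C (⊤ : TwoSidedIdeal A)) (m : ℕ) :
    C (Matrix (Fin m) (Fin m) A)ˣ := by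
  obtain ⟨h1, h2⟩ := strat hC _ h
  have hQ : C ((Matrix (Fin m) (Fin m) A)ˣ ⧸ (⊤ : Subgroup (Matrix (Fin m) (Fin m) A)ˣ)) := by
    refine hC.base.of_injective _ _ (1 : _ →* Multiplicative ℤ) ?_ hC.base.int
    intro v w _
    induction v using QuotientGroup.induction_on
    induction w using QuotientGroup.induction_on
    exact QuotientGroup.eq.2 (Subgroup.mem_top _)
  exact relative (m := m) hC ⊤ h1 h2 (⊤ : Subgroup (Matrix (Fin m) (Fin m) A)ˣ) hQ (MonoidHom.id _)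
    (fun n _ h => h) (fun n _ i j => TwoSidedIdeal.mem_top _)

end

end Pool.Agent.Helper492_FJ
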