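import Pool.Agent.Helper492_FJ.Main

set_option autoImplicit false

namespace Pool.Agent.Helper492_FJ

open Pool.Agent.Y110.FJ

/-- `J` has local units: each finite subset of `J` lies in a corner `e A e` with `e ∈ J` idempotent -/
def LocalUnits {A : Type} [Ring A] (J : TwoSidedIdeal A) : Prop :=
  ∀ E : Set A, E.Finite → (∀ a ∈ E, a ∈ J) → ∃ e ∈ J, IsIdempotentElem e ∧ ∀ a ∈ E, InCorner e a

/-- all general linear groups over the corner `e A e` are in the class -/
def GLCorner (C : ∀ (G : Type) [Group G], Prop) {A : Type} [Ring A] (e : A) : Prop :=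
  ∀ (he : IsIdempotentElem e) (m : ℕ), C (Matrix (Fin m) (Fin m) he.Corner)ˣ

/-- Ideals built from zero by directed unions and by passing from `J` to a larger ideal `J'` with local
units such that the general linear groups over the corners of the ring modulo `J` given by
idempotents of `J'` are in the class. -/
inductive Strat (C : ∀ (G : Type) [Group G], Prop) {A : Type} [Ring A] : TwoSidedIdeal A → Prop
  | zero (J : TwoSidedIdeal A) : (∀ a ∈ J, a = 0) → Strat C J
  | union (ι : Type) (J : TwoSidedIdeal A) (I : ι → TwoSidedIdeal A) : Nonempty ι →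
      (∀ i j, ∃ k, I i ≤ I k ∧ I j ≤ I k) → (∀ a, a ∈ J ↔ ∃ i, a ∈ I i) → (∀ i, Strat C (I i)) →
      Strat C J
  | step (J J' : TwoSidedIdeal A) (B : Type) [Ring B] (φ : A →+* B) : Strat C J → J ≤ J' →
      (∀ a ∈ J', a ∈ J ↔ φ a = 0) → LocalUnits J' →
      (∀ e ∈ J', IsIdempotentElem e → GLCorner C (φ e)) → Strat C J'

section

variable {A B : Type} [Ring A] [Ring B]

theorem corner_mem {f a : A} (hf : IsIdempotentElem f) (h : InCorner f a) :
    a ∈ Subsemigroup.corner f := (Subsemigroup.mem_corner_iff hf).2 h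

theorem corner_in {f : A} (hf : IsIdempotentElem f) (a : hf.Corner) : InCorner f a.1 :=
  (Subsemigroup.mem_corner_iff hf).1 a.2

/-- a ring homomorphism on a corner -/
def cornerMap (φ : A →+* B) {f : A} (hf : IsIdempotentElem f) (hφ : IsIdempotentElem (φ f)) :
    hf.Corner →+* hφ.Corner where
  toFun a := ⟨φ a.1, corner_mem hφ ⟨by
    rw [← map_mul, (corner_in hf a).1], by rw [← map_mul, (corner_in hf a).2]⟩⟩
  map_one' := rfl
  map_mul' a b := Subtype.ext (map_mul φ a.1 b.1)
  map_zero' := Subtype.ext (map_zero φ)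
  map_add' a b := Subtype.ext (map_add φ a.1 b.1)

variable {m : ℕ}

/-- the scalar matrix -/
def scm (m : ℕ) (f : A) : Matrix (Fin m) (Fin m) A := Matrix.diagonal fun _ => f

theorem scm_idem {f : A} (hf : IsIdempotentElem f) : IsIdempotentElem (scm m f) := by
  change Matrix.diagonal _ * Matrix.diagonal _ = _
  rw [Matrix.diagonal_mul_diagonal]
  congr 1
  funext _
  exact hf

theorem scm_corner_iff {f : A} {M : Matrix (Fin m) (Fin m) A} :
    InCorner (scm m f) M ↔ ∀ i j, InCorner f (M i j) := by
  constructor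
  · intro h i j
    refine ⟨?_, ?_⟩
    · have := congrFun (congrFun h.1 i) j
      rwa [scm, Matrix.diagonal_mul] at this
    · have := congrFun (congrFun h.2 i) j
      rwa [scm, Matrix.mul_diagonal] at this
  · intro h
    refine ⟨?_, ?_⟩
    · ext i j
      rw [scm, Matrix.diagonal_mul, (h i j).1]
    · ext i j
      rw [scm, Matrix.mul_diagonal, (h i j).2]

/-- the corner of a matrix ring -/
def cornerMat {f : A} (hf : IsIdempotentElem f) (h : IsIdempotentElem (scm m f)) :
    h.Corner →+* Matrix (Fin m) (Fin m) hf.Corner where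
  toFun M := Matrix.of fun i j => ⟨M.1 i j, corner_mem hf (scm_corner_iff.1 (corner_in h M) i j)⟩
  map_one' := by
    ext i j
    apply Subtype.ext
    change scm m f i j = ((1 : Matrix (Fin m) (Fin m) hf.Corner) i j).1
    rw [scm, Matrix.diagonal_apply, Matrix.one_apply]
    split_ifs <;> rfl
  map_zero' := rfl
  map_add' M M' := rfl
  map_mul' M M' := by
    ext i j
    apply Subtype.ext
    rw [Matrix.mul_apply]
    have h1 : ∀ (s : Finset (Fin m)) (F : Fin m → hf.Corner), (∑ k ∈ s, F k).1 = ∑ k ∈ s, (F k).1 := by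
      classical
      intro s F
      induction s using Finset.induction_on with
      | empty => rfl
      | insert a s ha ih =>
        rw [Finset.sum_insert ha, Finset.sum_insert ha, ← ih]
        rfl
    rw [h1]
    change (M.1 * M'.1 : Matrix (Fin m) (Fin m) A) i j = _
    rw [Matrix.mul_apply]
    rfl

theorem cornerMat_injective {f : A} (hf : IsIdempotentElem f) (h : IsIdempotentElem (scm m f)) :
    Function.Injective (cornerMat hf h) := by
  intro M M' hM
  apply Subtype.ext
  ext i j
  exact congrArg Subtype.val (congrFun (congrFun hM i) j)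

theorem gl_scm {C : ∀ (G : Type) [Group G], Prop} (hC : ClosedE C) {f : A} (hf : IsIdempotentElem f)
    (hGL : GLCorner C f) (h : IsIdempotentElem (scm m f)) :
    C (Matrix (Fin 2) (Fin 2) h.Corner)ˣ := by
  let E1 : Matrix (Fin 2) (Fin 2) h.Corner →+* Matrix (Fin 2) (Fin 2) (Matrix (Fin m) (Fin m) hf.Corner) :=
    (cornerMat hf h).mapMatrix
  have hE1 : Function.Injective E1 := by
    intro M M' hM
    ext a b
    apply cornerMat_injective hf h
    exact congrFun (congrFun hM a) b
  let E2 : Matrix (Fin 2) (Fin 2) (Matrix (Fin m) (Fin m) hf.Corner) ≃+*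
      Matrix (Fin 2 × Fin m) (Fin 2 × Fin m) hf.Corner := Matrix.compRingEquiv _ _ _
  let E3 : Matrix (Fin 2 × Fin m) (Fin 2 × Fin m) hf.Corner ≃+*
      Matrix (Fin (2 * m)) (Fin (2 * m)) hf.Corner :=
    (Matrix.reindexAlgEquiv ℤ hf.Corner finProdFinEquiv).toRingEquiv
  let F : Matrix (Fin 2) (Fin 2) h.Corner →+* Matrix (Fin (2 * m)) (Fin (2 * m)) hf.Corner :=
    E3.toRingHom.comp (E2.toRingHom.comp E1)
  have hF : Function.Injective F := E3.injective.comp (E2.injective.comp hE1)
  exact hC.base.of_injective _ _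
    (Units.map (F : Matrix (Fin 2) (Fin 2) h.Corner →* Matrix (Fin (2 * m)) (Fin (2 * m)) hf.Corner))
    (Units.map_injective hF) (hGL hf (2 * m))

/-- the relative theorem for an ideal with local units -/
theorem relative {C : ∀ (G : Type) [Group G], Prop} (hC : ClosedE C) (J : TwoSidedIdeal A)
    (hJ : LocalUnits J) (hGL : ∀ e ∈ J, IsIdempotentElem e → GLCorner C e)
    {G : Type} [Group G] (N : Subgroup G) [N.Normal] (hQ : C (G ⧸ N))
    (ρ : G →* (Matrix (Fin m) (Fin m) A)ˣ) (hinj : ∀ n ∈ N, ρ n = 1 → n = 1)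
    (hN : ∀ n ∈ N, ∀ i j, ((ρ n).val - 1) i j ∈ J) : C G := by
  have key : ∀ M : Matrix (Fin m) (Fin m) A, (∀ i j, M i j ∈ J) →
      ∃ e ∈ J, IsIdempotentElem e ∧ InCorner (scm m e) M := by
    intro M hM
    obtain ⟨e, he, hid, h⟩ := hJ (Set.range fun p : Fin m × Fin m => M p.1 p.2) (Set.finite_range _)
      (by rintro _ ⟨p, rfl⟩; exact hM _ _)
    exact ⟨e, he, hid, scm_corner_iff.2 fun i j => h _ ⟨(i, j), rfl⟩⟩
  refine main hC {E : Matrix (Fin m) (Fin m) A | ∃ e ∈ J, IsIdempotentElem e ∧ E = scm m e}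
    ?_ ?_ ?_ ρ ?_ N hQ hinj ?_
  · rintro _ ⟨e, _, hid, rfl⟩
    exact scm_idem hid
  · rintro _ ⟨e, he, hid, rfl⟩ _ ⟨e', he', hid', rfl⟩
    obtain ⟨f, hf, hfid, h⟩ := hJ {e, e'} (Set.toFinite _) (by
      rintro a (rfl | rfl)
      · exact he
      · exact he')
    refine ⟨_, ⟨f, hf, hfid, rfl⟩, scm_corner_iff.2 fun i j => ?_, scm_corner_iff.2 fun i j => ?_⟩
    · rw [scm, Matrix.diagonal_apply]
      split_ifs
      · exact h e (by simp)
      · exact ⟨mul_zero _, zero_mul _⟩
    · rw [scm, Matrix.diagonal_apply]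
      split_ifs
      · exact h e' (by simp)
      · exact ⟨mul_zero _, zero_mul _⟩
  · rintro _ h ⟨e, he, hid, rfl⟩
    exact gl_scm hC hid (hGL e he hid) h
  · rintro g _ ⟨e, he, hid, rfl⟩
    obtain ⟨f, hf, hfid, h⟩ := key ((ρ g).val * scm m e * (ρ g)⁻¹.val) (fun i j => by
      rw [Matrix.mul_apply]
      refine sum_mem fun k _ => TwoSidedIdeal.mul_mem_right _ _ _ ?_
      rw [scm, Matrix.mul_diagonal]
      exact TwoSidedIdeal.mul_mem_left _ _ _ he)
    exact ⟨_, ⟨f, hf, hfid, rfl⟩, h⟩
  · intro n hn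
    obtain ⟨f, hf, hfid, h⟩ := key _ (hN n hn)
    exact ⟨_, ⟨f, hf, hfid, rfl⟩, h⟩

/-- the inclusion of a corner -/
def cv {f : A} (hf : IsIdempotentElem f) (z : hf.Corner) : A := z.1

/-- invertible matrices over a corner as matrices over the ring -/
def extHom {f : A} (hf : IsIdempotentElem f) (m : ℕ) :
    (Matrix (Fin m) (Fin m) hf.Corner)ˣ →* Matrix (Fin m) (Fin m) A where
  toFun v := v.val.map (cv hf) + (1 - scm m f)
  map_one' := by
    ext i j
    change ((1 : Matrix (Fin m) (Fin m) hf.Corner) i j).1 + ((1 : Matrix (Fin m) (Fin m) A) i j -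
      scm m f i j) = (1 : Matrix (Fin m) (Fin m) A) i j
    rw [Matrix.one_apply, Matrix.one_apply, scm, Matrix.diagonal_apply]
    split_ifs
    · change f + (1 - f) = 1
      abel
    · change (0 : A) + (0 - 0) = 0
      simp
  map_mul' v w := by
    have h1 : ∀ z : Matrix (Fin m) (Fin m) hf.Corner, InCorner (scm m f) (z.map (cv hf)) :=
      fun z => scm_corner_iff.2 fun i j => corner_in hf (z i j)
    have h2 : (v.val * w.val).map (cv hf) =
        (v.val.map (cv hf) * w.val.map (cv hf) : Matrix (Fin m) (Fin m) A) := by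
      ext i j
      rw [Matrix.map_apply, Matrix.mul_apply, Matrix.mul_apply]
      have h3 : ∀ (s : Finset (Fin m)) (F : Fin m → hf.Corner),
          cv hf (∑ k ∈ s, F k) = ∑ k ∈ s, cv hf (F k) := by
        classical
        intro s F
        induction s using Finset.induction_on with
        | empty => rfl
        | insert a s ha ih =>
          rw [Finset.sum_insert ha, Finset.sum_insert ha, ← ih]
          rfl
      rw [h3]
      rfl
    obtain ⟨a1, a2⟩ := h1 v.val
    obtain ⟨b1, b2⟩ := h1 w.val
    have h4 : scm m f * scm m f = scm m f := scm_idem hf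
    change (v.val * w.val).map (cv hf) + (1 - scm m f) = _
    rw [h2, add_mul, mul_add, mul_add, mul_sub, mul_one, a2, sub_self, add_zero, sub_mul, one_mul, b1,
      sub_self, zero_add, mul_sub, sub_mul, sub_mul, mul_one, mul_one, one_mul, h4, sub_self, sub_zero]

theorem extHom_injective {f : A} (hf : IsIdempotentElem f) (m : ℕ) :
    Function.Injective (extHom hf m) := by
  intro v w h
  apply Units.ext
  have h1 : v.val.map (cv hf) = (w.val.map (cv hf) : Matrix (Fin m) (Fin m) A) :=
    add_right_cancel h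
  ext i j
  apply Subtype.ext
  exact congrFun (congrFun h1 i) j

/-- **all corners of a stratified ideal** -/
theorem strat {C : ∀ (G : Type) [Group G], Prop} (hC : ClosedE C) (J : TwoSidedIdeal A)
    (h : Strat C J) : LocalUnits J ∧ ∀ e ∈ J, IsIdempotentElem e → GLCorner C e := by
  induction h with
  | zero J hJ =>
    refine ⟨fun E _ hEJ => ⟨0, zero_mem _, IsIdempotentElem.zero, fun a ha => ?_⟩, ?_⟩
    · rw [hJ a (hEJ a ha)]
      exact ⟨mul_zero _, zero_mul _⟩
    · intro e he hid hid' m
      have he0 := hJ e he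
      subst he0
      have h1 : Subsingleton (Matrix (Fin m) (Fin m) hid'.Corner)ˣ := by
        refine ⟨fun v w => ?_⟩
        apply Units.ext
        ext i j
        apply Subtype.ext
        have h2 : ∀ z : hid'.Corner, z.1 = 0 := fun z => by
          rw [← (corner_in hid' z).1, zero_mul]
        exact (h2 _).trans (h2 _).symm
      exact hC.base.of_injective _ _ (1 : _ →* Multiplicative ℤ)
        (fun v w _ => Subsingleton.elim v w) hC.base.int
  | union ι J I hι hdir hJ _ ih =>
    refine ⟨fun E hE hEJ => ?_, fun e he hid => ?_⟩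
    · have h1 : ∃ k, ∀ a ∈ E, a ∈ I k := by
        induction E, hE using Set.Finite.induction_on with
        | empty =>
          obtain ⟨k⟩ := hι
          exact ⟨k, fun a ha => ha.elim⟩
        | @insert a s _ _ ih' =>
          obtain ⟨k, hk⟩ := ih' (fun x hx => hEJ x (Set.mem_insert_of_mem _ hx))
          obtain ⟨l, hl⟩ := (hJ a).1 (hEJ a (Set.mem_insert _ _))
          obtain ⟨n, h2, h3⟩ := hdir k l
          refine ⟨n, fun x hx => ?_⟩
          rcases Set.mem_insert_iff.1 hx with rfl | hx
          · exact h3 hl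
          · exact h2 (hk x hx)
      obtain ⟨k, hk⟩ := h1
      obtain ⟨e, he, h2, h3⟩ := (ih k).1 E hE hk
      exact ⟨e, (hJ e).2 ⟨k, he⟩, h2, h3⟩
    · obtain ⟨k, hk⟩ := (hJ e).1 he
      exact (ih k).2 e hk hid
  | step J J' B φ _ hJJ' hφ hLU hGL ih =>
    refine ⟨hLU, fun f hf hid hid' m => ?_⟩
    have hidφ : IsIdempotentElem (φ f) := hid.map φ
    let π : (Matrix (Fin m) (Fin m) hid'.Corner)ˣ →* (Matrix (Fin m) (Fin m) hidφ.Corner)ˣ :=
      Units.map (RingHom.toMonoidHom ((cornerMap φ hid' hidφ).mapMatrix :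
        Matrix (Fin m) (Fin m) hid'.Corner →+* Matrix (Fin m) (Fin m) hidφ.Corner))
    have hQ : C ((Matrix (Fin m) (Fin m) hid'.Corner)ˣ ⧸ π.ker) :=
      hC.base.of_injective _ _ (QuotientGroup.kerLift π) (QuotientGroup.kerLift_injective π)
        (hGL f hf hid hidφ m)
    refine relative (m := m) hC J ih.1 ih.2 π.ker hQ (extHom hid' m).toHomUnits ?_ ?_
    · intro n _ hn
      apply extHom_injective hid' m
      rw [map_one]
      exact congrArg Units.val hn
    · intro n hn i j
      have h1 : π n = 1 := hn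
      have h2 : φ (n.val i j).1 = φ (scm m f i j) := by
        have h0 : ((π n).val : Matrix (Fin m) (Fin m) hidφ.Corner) = 1 := by
          rw [h1]
          rfl
        have h3 := congrArg Subtype.val (congrFun (congrFun h0 i) j)
        have h4 : ((1 : Matrix (Fin m) (Fin m) hidφ.Corner) i j).1 = φ (scm m f i j) := by
          rw [Matrix.one_apply, scm, Matrix.diagonal_apply]
          split_ifs
          · rfl
          · exact (map_zero φ).symm
        exact h3.trans h4
      have h5 : (extHom hid' m n - 1 : Matrix (Fin m) (Fin m) A) i j =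
          (n.val i j).1 - scm m f i j := by
        change (n.val i j).1 + ((1 : Matrix (Fin m) (Fin m) A) i j - scm m f i j) -
          (1 : Matrix (Fin m) (Fin m) A) i j = _
        abel
      change (extHom hid' m n - 1 : Matrix (Fin m) (Fin m) A) i j ∈ J
      rw [h5]
      refine (hφ _ ?_).2 (by rw [map_sub, h2, sub_self])
      refine sub_mem ?_ ?_
      · rw [← (corner_in hid' (n.val i j)).1]
        exact TwoSidedIdeal.mul_mem_right _ _ _ hf
      · rw [scm, Matrix.diagonal_apply]
        split_ifs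
        · exact hf
        · exact zero_mem _

end

end Pool.Agent.Helper492_FJ
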